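import Pool.Agent.U590.RT.Fin
import Pool.Agent.H464R3.Cocycle
import Pool.Agent.H305R3.Rot.Defs

/-!
# Amenable isometry groups and uniform embeddings into Hilbert spaces
-/

set_option autoImplicit false
set_option linter.unusedSectionVars false
set_option linter.unusedVariables false
set_option linter.deprecated false

open scoped InnerProductSpace ENNReal
open Filter Topology MeasureTheory
open Pool.H305R3.Rot (UC SOTAmenable)
open Pool.Agent.H464R3.Info (MeanOn exists_meanOn additive_linear_of_bound)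

noncomputable section

namespace Pool.Agent.U590.RT

theorem neg_hilbert {H : Type} [NormedAddCommGroup H] [InnerProductSpace ℝ H] : NegType H 2 := by
  intro n x c hc
  have h1 : ∀ i j, ‖x i - x j‖ ^ (2 : ℝ) = ‖x i‖ ^ 2 + ‖x j‖ ^ 2 - 2 * ⟪x i, x j⟫_ℝ := by
    intro i j
    rw [Real.rpow_two, norm_sub_sq_real]
    ring
  have e : ∑ i, ∑ j, c i * c j * ‖x i - x j‖ ^ (2 : ℝ) =
      (∑ i, c i * ‖x i‖ ^ 2) * (∑ j, c j) + (∑ i, c i) * (∑ j, c j * ‖x j‖ ^ 2) -
        2 * ∑ i, ∑ j, c i * c j * ⟪x i, x j⟫_ℝ := by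
    rw [Finset.sum_mul_sum, Finset.sum_mul_sum, Finset.mul_sum,
      ← Finset.sum_add_distrib, ← Finset.sum_sub_distrib]
    refine Finset.sum_congr rfl fun i _ => ?_
    rw [Finset.mul_sum, ← Finset.sum_add_distrib, ← Finset.sum_sub_distrib]
    refine Finset.sum_congr rfl fun j _ => ?_
    rw [h1]
    ring
  have h3 : ∑ i, ∑ j, c i * c j * ⟪x i, x j⟫_ℝ = ‖∑ i, c i • x i‖ ^ 2 := by
    rw [← real_inner_self_eq_norm_sq, sum_inner]
    refine Finset.sum_congr rfl fun i _ => ?_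
    rw [inner_sum]
    refine Finset.sum_congr rfl fun j _ => ?_
    rw [real_inner_smul_left, real_inner_smul_right]
    ring
  rw [e, hc, h3]
  nlinarith [sq_nonneg ‖∑ i, c i • x i‖]

/-! ### linearity of means -/

section

variable {G : Type} [AddCommGroup G] {M : (G → ℝ) → ℝ}

theorem mean_smul (hM : MeanOn G M) {f : G → ℝ} (hf : Gardner.Bdd f) (a : ℝ) :
    M (fun x => a * f x) = a * M f := by
  obtain ⟨C, hC⟩ := hf
  have hb : ∀ a : ℝ, Gardner.Bdd (fun x => a * f x) := fun a =>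
    ⟨|a| * C, fun x => by rw [abs_mul]; exact mul_le_mul_of_nonneg_left (hC x) (abs_nonneg _)⟩
  have hadd : ∀ a b : ℝ, M (fun x => (a + b) * f x) =
      M (fun x => a * f x) + M (fun x => b * f x) := by
    intro a b
    rw [← hM.add' (hb a) (hb b)]
    congr 1
    funext x
    ring
  let ψ : ℝ →+ ℝ := AddMonoidHom.mk' (fun a => M (fun x => a * f x)) hadd
  have h := additive_linear_of_bound ψ C (fun x => hM.bound _ _ fun y => by
    rw [abs_mul, mul_comm C]
    exact mul_le_mul_of_nonneg_left (hC y) (abs_nonneg _)) a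
  have h2 : ψ 1 = M f := by
    show M (fun x => 1 * f x) = M f
    congr 1
    funext x
    rw [one_mul]
  rw [h2] at h
  exact h

theorem mean_nonneg (hM : MeanOn G M) {f : G → ℝ} {C : ℝ} (h0 : ∀ x, 0 ≤ f x)
    (hC : ∀ x, f x ≤ C) : 0 ≤ M f := by
  have hb : Gardner.Bdd f := ⟨C, fun x => by rw [abs_of_nonneg (h0 x)]; exact hC x⟩
  have h1 := hM.bound (fun x => C / 2 - f x) (C / 2) (fun x => by
    rw [abs_le]
    constructor <;> linarith [h0 x, hC x])
  have h2 : M (fun x => C / 2 - f x) = C / 2 - M f := by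
    have := hM.sub' (f := fun _ => C / 2) (Pool.Agent.H464R3.Info.bdd_const _) hb
    rw [hM.const] at this
    exact this
  rw [h2] at h1
  have := (abs_le.1 h1).2
  linarith

theorem mean_sum (hM : MeanOn G M) {ι : Type} (s : Finset ι) (f : ι → G → ℝ)
    (hf : ∀ i, Gardner.Bdd (f i)) :
    Gardner.Bdd (fun x => ∑ i ∈ s, f i x) ∧ M (fun x => ∑ i ∈ s, f i x) = ∑ i ∈ s, M (f i) := by
  classical
  induction s using Finset.induction_on with
  | empty =>
    refine ⟨⟨0, fun x => by simp⟩, ?_⟩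
    simp only [Finset.sum_empty]
    exact hM.const 0
  | insert a s ha ih =>
    simp only [Finset.sum_insert ha]
    refine ⟨Pool.Agent.H464R3.Info.bdd_add (hf a) ih.1, ?_⟩
    rw [hM.add' (hf a) ih.1, ih.2]

end

/-! ### linearity of the mean on the isometry group -/

section

variable {E : Type} [NormedAddCommGroup E] [NormedSpace ℝ E]

theorem uc_add {F F' : (E ≃ₗᵢ[ℝ] E) → ℝ} (h : UC E F) (h' : UC E F') :
    UC E (fun T => F T + F' T) := by
  classical
  obtain ⟨⟨C, hC⟩, h1⟩ := h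
  obtain ⟨⟨C', hC'⟩, h1'⟩ := h'
  refine ⟨⟨C + C', fun T => (abs_add_le _ _).trans (add_le_add (hC T) (hC' T))⟩, fun ε hε => ?_⟩
  obtain ⟨Z, δ, hδ, h2⟩ := h1 (ε / 2) (by positivity)
  obtain ⟨Z', δ', hδ', h2'⟩ := h1' (ε / 2) (by positivity)
  refine ⟨Z ∪ Z', min δ δ', lt_min hδ hδ', fun T S hS => ?_⟩
  have a1 := h2 T S fun z hz => (hS z (Finset.mem_union_left _ hz)).trans (min_le_left _ _)
  have a2 := h2' T S fun z hz => (hS z (Finset.mem_union_right _ hz)).trans (min_le_right _ _)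
  have e : F (S.trans T) + F' (S.trans T) - (F T + F' T) =
      (F (S.trans T) - F T) + (F' (S.trans T) - F' T) := by ring
  rw [e]
  refine (abs_add_le _ _).trans ?_
  linarith

theorem uc_mul {F : (E ≃ₗᵢ[ℝ] E) → ℝ} (h : UC E F) (r : ℝ) : UC E (fun T => r * F T) := by
  obtain ⟨⟨C, hC⟩, h1⟩ := h
  refine ⟨⟨|r| * C, fun T => by
    rw [abs_mul]; exact mul_le_mul_of_nonneg_left (hC T) (abs_nonneg _)⟩, fun ε hε => ?_⟩
  obtain ⟨Z, δ, hδ, h2⟩ := h1 (ε / (|r| + 1)) (by positivity)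
  refine ⟨Z, δ, hδ, fun T S hS => ?_⟩
  rw [← mul_sub, abs_mul]
  have a1 := h2 T S hS
  calc |r| * |F (S.trans T) - F T| ≤ (|r| + 1) * (ε / (|r| + 1)) :=
        mul_le_mul (by linarith) a1 (abs_nonneg _) (by positivity)
    _ = ε := by field_simp

theorem uc_const (r : ℝ) : UC E (fun _ => r) :=
  ⟨⟨|r|, fun _ => le_rfl⟩, fun ε hε => ⟨∅, 1, one_pos, fun T S _ => by
    rw [sub_self, abs_zero]; exact hε.le⟩⟩

/-- data of an invariant mean -/
structure IM (M : ((E ≃ₗᵢ[ℝ] E) → ℝ) → ℝ) : Prop where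
  add : ∀ F F', UC E F → UC E F' → M (fun T => F T + F' T) = M F + M F'
  mul : ∀ (r : ℝ) F, UC E F → M (fun T => r * F T) = r * M F
  pos : ∀ F, UC E F → (∀ T, 0 ≤ F T) → 0 ≤ M F
  one : M (fun _ => 1) = 1
  inv : ∀ (S : E ≃ₗᵢ[ℝ] E) F, UC E F → M (fun T => F (S.trans T)) = M F

variable {M : ((E ≃ₗᵢ[ℝ] E) → ℝ) → ℝ}

theorem IM.const (hM : IM M) (r : ℝ) : M (fun _ => r) = r := by
  have h := hM.mul r _ (uc_const 1)
  simp only [mul_one, hM.one] at h
  exact h

theorem IM.mono (hM : IM M) {F F' : (E ≃ₗᵢ[ℝ] E) → ℝ} (h : UC E F) (h' : UC E F')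
    (hle : ∀ T, F T ≤ F' T) : M F ≤ M F' := by
  have h1 : UC E (fun T => F' T + (-1) * F T) := uc_add h' (uc_mul h _)
  have h2 := hM.pos _ h1 (fun T => by linarith [hle T])
  rw [hM.add _ _ h' (uc_mul h _), hM.mul _ _ h] at h2
  linarith

theorem IM.sum (hM : IM M) {ι : Type} (s : Finset ι) (F : ι → (E ≃ₗᵢ[ℝ] E) → ℝ)
    (hF : ∀ i, UC E (F i)) :
    UC E (fun T => ∑ i ∈ s, F i T) ∧ M (fun T => ∑ i ∈ s, F i T) = ∑ i ∈ s, M (F i) := by
  classical
  induction s using Finset.induction_on with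
  | empty =>
    simp only [Finset.sum_empty]
    exact ⟨uc_const 0, hM.const 0⟩
  | insert a s ha ih =>
    simp only [Finset.sum_insert ha]
    exact ⟨uc_add (hF a) ih.1, by rw [hM.add _ _ (hF a) ih.1, ih.2]⟩

end

/-! ### The averaged kernel -/

section

variable {E : Type} [NormedAddCommGroup E] [NormedSpace ℝ E]

theorem exp_lip (a b : ℝ) :
    |Real.exp (-a ^ 2) - Real.exp (-b ^ 2)| ≤ 2 * |a - b| := by
  have hd : ∀ t : ℝ, HasDerivAt (fun t : ℝ => Real.exp (-t ^ 2))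
      (Real.exp (-t ^ 2) * -(2 * t)) t := by
    intro t
    have h1 : HasDerivAt (fun t : ℝ => -t ^ 2) (-(2 * t)) t := by
      have h0 := (hasDerivAt_pow 2 t).fun_neg
      have e : -((2 : ℕ) * t ^ (2 - 1) : ℝ) = -(2 * t) := by norm_num
      rw [e] at h0
      exact h0
    exact h1.exp
  have h := Convex.norm_image_sub_le_of_norm_deriv_le (f := fun t : ℝ => Real.exp (-t ^ 2))
    (C := 2) (s := Set.univ) (x := b) (y := a) (fun t _ => (hd t).differentiableAt) (fun t _ => by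
      rw [(hd t).deriv, norm_mul, Real.norm_eq_abs, Real.norm_eq_abs, Real.abs_exp, abs_neg, abs_mul,
        abs_two]
      have h1 : |t| ≤ Real.exp (t ^ 2) := by
        have h2 := Real.add_one_le_exp (t ^ 2)
        have h3 : |t| ≤ t ^ 2 + 1 := by
          rcases abs_cases t with h | h <;> nlinarith [sq_nonneg (|t| - 1), sq_abs t]
        linarith
      have h4 : Real.exp (-t ^ 2) * Real.exp (t ^ 2) = 1 := by
        rw [← Real.exp_add]; simp
      have h5 := mul_le_mul_of_nonneg_left h1 (Real.exp_pos (-t ^ 2)).le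
      rw [h4] at h5
      linarith) convex_univ (Set.mem_univ _) (Set.mem_univ _)
  simpa [Real.norm_eq_abs] using h

variable {H : Type} [NormedAddCommGroup H] [InnerProductSpace ℝ H]

/-- the kernel -/
def kk (F : E → H) (x y : E) : ℝ := Real.exp (-‖F x - F y‖ ^ 2)

theorem kk_pos (F : E → H) (x y : E) : 0 ≤ kk F x y := (Real.exp_pos _).le

theorem kk_le (F : E → H) (x y : E) : kk F x y ≤ 1 := by
  unfold kk; rw [Real.exp_le_one_iff]; nlinarith [norm_nonneg (F x - F y)]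

theorem kk_psd (F : E → H) (n : ℕ) (x : Fin n → E) (c : Fin n → ℝ) :
    0 ≤ ∑ i, ∑ j, c i * c j * kk F (x i) (x j) := by
  have h := (neg_hilbert (H := H)).exp_psd two_pos (κ := Fin n) (fun i => F (x i)) c
  simpa only [Real.rpow_two, kk] using h

/-- average over the translations -/
def K1 (M : (E → ℝ) → ℝ) (F : E → H) (x : E) : ℝ := M (fun z => kk F (x + z) z)

theorem kk_bdd (F : E → H) (x y : E) : Gardner.Bdd (fun z => kk F (x + z) (y + z)) :=
  ⟨1, fun z => by rw [abs_of_nonneg (kk_pos _ _ _)]; exact kk_le _ _ _⟩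

theorem kk_bdd' (F : E → H) (x : E) : Gardner.Bdd (fun z => kk F (x + z) z) :=
  ⟨1, fun z => by rw [abs_of_nonneg (kk_pos _ _ _)]; exact kk_le _ _ _⟩

theorem K1_sub {M : (E → ℝ) → ℝ} (hM : MeanOn E M) (F : E → H) (x y : E) :
    K1 M F (x - y) = M (fun z => kk F (x + z) (y + z)) := by
  unfold K1
  rw [← hM.inv (fun z => kk F (x - y + z) z) y (kk_bdd' F (x - y))]
  congr 1
  funext z
  congr 1
  abel

theorem K1_psd {M : (E → ℝ) → ℝ} (hM : MeanOn E M) (F : E → H) (n : ℕ) (x : Fin n → E)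
    (c : Fin n → ℝ) : 0 ≤ ∑ i, ∑ j, c i * c j * K1 M F (x i - x j) := by
  have hb : ∀ i j, Gardner.Bdd (fun z => c i * c j * kk F (x i + z) (x j + z)) := by
    intro i j
    obtain ⟨C, hC⟩ := kk_bdd F (x i) (x j)
    exact ⟨|c i * c j| * C, fun z => by
      rw [abs_mul]; exact mul_le_mul_of_nonneg_left (hC z) (abs_nonneg _)⟩
  have h1 : ∀ i, Gardner.Bdd (fun z => ∑ j, c i * c j * kk F (x i + z) (x j + z)) ∧
      M (fun z => ∑ j, c i * c j * kk F (x i + z) (x j + z)) =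
        ∑ j, M (fun z => c i * c j * kk F (x i + z) (x j + z)) := fun i =>
    mean_sum hM Finset.univ (fun j z => c i * c j * kk F (x i + z) (x j + z)) (hb i)
  have h2 := mean_sum hM Finset.univ
    (fun i z => ∑ j, c i * c j * kk F (x i + z) (x j + z)) (fun i => (h1 i).1)
  have e : ∑ i, ∑ j, c i * c j * K1 M F (x i - x j) =
      M (fun z => ∑ i, ∑ j, c i * c j * kk F (x i + z) (x j + z)) := by
    rw [h2.2]
    refine Finset.sum_congr rfl fun i _ => ?_
    rw [(h1 i).2]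
    refine Finset.sum_congr rfl fun j _ => ?_
    rw [K1_sub hM, mean_smul hM (kk_bdd F _ _)]
  rw [e]
  refine mean_nonneg hM (C := ∑ i, ∑ j, |c i * c j|) (fun z => kk_psd F n (fun i => x i + z) c)
    fun z => ?_
  refine Finset.sum_le_sum fun i _ => Finset.sum_le_sum fun j _ => ?_
  have h3 := kk_le F (x i + z) (x j + z)
  have h4 := kk_pos F (x i + z) (x j + z)
  calc c i * c j * kk F (x i + z) (x j + z) ≤ |c i * c j| * kk F (x i + z) (x j + z) :=
        mul_le_mul_of_nonneg_right (le_abs_self _) h4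
    _ ≤ |c i * c j| * 1 := mul_le_mul_of_nonneg_left h3 (abs_nonneg _)
    _ = _ := mul_one _

theorem K1_zero {M : (E → ℝ) → ℝ} (hM : MeanOn E M) (F : E → H) : K1 M F 0 = 1 := by
  unfold K1 kk
  simp only [zero_add, sub_self, norm_zero]
  have : (fun z : E => Real.exp (-(0 : ℝ) ^ 2)) = fun _ => (1 : ℝ) := by
    funext z; simp
  rw [this, hM.const]

theorem K1_cont {M : (E → ℝ) → ℝ} (hM : MeanOn E M) {F : E → H} {ε δ : ℝ}
    (hF : ∀ x y, ‖x - y‖ < δ → ‖F x - F y‖ ≤ ε) {x y : E} (hxy : ‖x - y‖ < δ) :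
    |K1 M F x - K1 M F y| ≤ 2 * ε := by
  unfold K1
  rw [← hM.sub' (kk_bdd' F x) (kk_bdd' F y)]
  refine hM.bound _ _ fun z => ?_
  unfold kk
  refine (exp_lip _ _).trans (mul_le_mul_of_nonneg_left ?_ two_pos.le)
  refine (abs_norm_sub_norm_le _ _).trans ?_
  rw [sub_sub_sub_cancel_right]
  exact hF _ _ (by rw [add_sub_add_right_eq_sub]; exact hxy)

theorem K1_le {M : (E → ℝ) → ℝ} (hM : MeanOn E M) {F : E → H} {s ε₀ : ℝ} (hε₀ : 0 ≤ ε₀)
    (hsep : ∀ x y, ‖x - y‖ = s → ε₀ ≤ ‖F x - F y‖) {x : E} (hx : ‖x‖ = s) :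
    K1 M F x ≤ Real.exp (-ε₀ ^ 2) := by
  have h1 : 0 ≤ M (fun z => Real.exp (-ε₀ ^ 2) - kk F (x + z) z) := by
    refine mean_nonneg hM (C := Real.exp (-ε₀ ^ 2)) (fun z => ?_) fun z => by
      have := kk_pos F (x + z) z
      linarith
    rw [sub_nonneg]
    unfold kk
    rw [Real.exp_le_exp, neg_le_neg_iff]
    exact pow_le_pow_left₀ hε₀ (hsep _ _ (by rw [add_sub_cancel_right]; exact hx)) 2
  have h2 : M (fun z => Real.exp (-ε₀ ^ 2) - kk F (x + z) z) = Real.exp (-ε₀ ^ 2) - K1 M F x := by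
    have := hM.sub' (f := fun _ => Real.exp (-ε₀ ^ 2)) (Pool.Agent.H464R3.Info.bdd_const _)
      (kk_bdd' F x)
    rw [hM.const] at this
    exact this
  rw [h2] at h1
  linarith

theorem K1_abs {M : (E → ℝ) → ℝ} (hM : MeanOn E M) (F : E → H) (x : E) : |K1 M F x| ≤ 1 :=
  hM.bound _ _ fun z => by rw [abs_of_nonneg (kk_pos _ _ _)]; exact kk_le _ _ _

/-- A space with amenable isometry group and almost transitive norm which embeds uniformly
continuously, without collapsing one scale, into a Hilbert space has radial positive definite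
functions. -/
theorem hasPD_of_amenable (hE : AlmostTransitive E) (hr : 1 < Module.rank ℝ E)
    (hA : SOTAmenable E) (F : E → H) (hF : UniformContinuous F) {s ε₀ : ℝ} (hs : 0 < s)
    (hε₀ : 0 < ε₀) (hsep : ∀ x y, ‖x - y‖ = s → ε₀ ≤ ‖F x - F y‖) : HasRadialPD E := by
  obtain ⟨M, hM⟩ := exists_meanOn E
  obtain ⟨M', hadd, hmul, hpos, hone, hinv⟩ := hA
  have hI : IM M' := ⟨hadd, hmul, hpos, hone, hinv⟩
  obtain ⟨e, he⟩ := exists_unit hr
  have hFu : ∀ ε : ℝ, 0 < ε → ∃ δ : ℝ, 0 < δ ∧ ∀ x y, ‖x - y‖ < δ → ‖F x - F y‖ ≤ ε := by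
    intro ε hε
    obtain ⟨δ, hδ, h⟩ := Metric.uniformContinuous_iff.1 hF ε hε
    refine ⟨δ, hδ, fun x y hxy => ?_⟩
    rw [← dist_eq_norm]
    exact (h (by rw [dist_eq_norm]; exact hxy)).le
  have huc : ∀ x : E, UC E (fun T => K1 M F (T x)) := by
    intro x
    refine ⟨⟨1, fun T => K1_abs hM F _⟩, fun ε hε => ?_⟩
    obtain ⟨δ, hδ, h⟩ := hFu (ε / 2) (by positivity)
    refine ⟨{x}, δ / 2, by positivity, fun T S hS => ?_⟩
    have h1 : ‖(S.trans T) x - T x‖ < δ := by
      rw [LinearIsometryEquiv.trans_apply, ← map_sub, T.norm_map]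
      have := hS x (Finset.mem_singleton_self x)
      linarith
    have h2 := K1_cont hM h h1
    linarith
  set K2 : E → ℝ := fun x => M' (fun T => K1 M F (T x)) with hK2
  have hK2inv : ∀ (S : E ≃ₗᵢ[ℝ] E) (x : E), K2 (S x) = K2 x := fun S x => hinv S _ (huc x)
  have hK2cont : ∀ {ε δ : ℝ}, (∀ x y, ‖x - y‖ < δ → ‖F x - F y‖ ≤ ε) → ∀ {x y : E}, ‖x - y‖ < δ →
      |K2 x - K2 y| ≤ 2 * ε := by
    intro ε δ h x y hxy
    have h1 : ∀ T : E ≃ₗᵢ[ℝ] E, |K1 M F (T x) - K1 M F (T y)| ≤ 2 * ε := fun T =>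
      K1_cont hM h (by rw [← map_sub, T.norm_map]; exact hxy)
    rw [abs_le]
    constructor
    · have h2 := hI.mono (uc_add (huc y) (uc_const (-(2 * ε)))) (huc x) (fun T => by
        have := (abs_le.1 (h1 T)).1; linarith)
      rw [hI.add _ _ (huc y) (uc_const _), hI.const] at h2
      simp only [hK2]
      linarith
    · have h2 := hI.mono (huc x) (uc_add (huc y) (uc_const (2 * ε))) (fun T => by
        have := (abs_le.1 (h1 T)).2; linarith)
      rw [hI.add _ _ (huc y) (uc_const _), hI.const] at h2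
      simp only [hK2]
      linarith
  have hrad : ∀ x y : E, ‖x‖ = ‖y‖ → K2 x = K2 y := by
    intro x y hxy
    by_cases hx : x = 0
    · have hy : y = 0 := by rw [hx, norm_zero] at hxy; exact norm_eq_zero.1 hxy.symm
      rw [hx, hy]
    have hxpos : 0 < ‖x‖ := norm_pos_iff.2 hx
    rw [← sub_eq_zero, ← abs_eq_zero]
    refine le_antisymm (le_of_forall_pos_le_add fun ε hε => ?_) (abs_nonneg _)
    rw [zero_add]
    obtain ⟨δ, hδ, h⟩ := hFu (ε / 2) (by positivity)
    obtain ⟨T, hT⟩ := hE (‖x‖⁻¹ • x) (‖x‖⁻¹ • y)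
      (by rw [norm_smul, norm_inv, norm_norm, inv_mul_cancel₀ hxpos.ne'])
      (by rw [norm_smul, norm_inv, norm_norm, ← hxy, inv_mul_cancel₀ hxpos.ne'])
      (δ / ‖x‖) (by positivity)
    have h1 : ‖T x - y‖ < δ := by
      have e : T (‖x‖⁻¹ • x) - ‖x‖⁻¹ • y = ‖x‖⁻¹ • (T x - y) := by
        rw [smul_sub, map_smul]
      rw [e, norm_smul, norm_inv, norm_norm, inv_mul_eq_div,
        div_lt_div_iff_of_pos_right hxpos] at hT
      exact hT
    have h2 := hK2cont h h1
    rw [hK2inv] at h2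
    linarith
  have hte : ∀ t : ℝ, 0 ≤ t → ‖t • e‖ = t := fun t ht => by
    rw [norm_smul, he, mul_one, Real.norm_of_nonneg ht]
  have hK20 : K2 0 = 1 := by
    simp only [hK2, map_zero, K1_zero hM]
    exact hone
  refine ⟨fun t => K2 (t • e), fun n x c => ?_, ?_, s, hs, ?_⟩
  · have e1 : ∀ i j, K2 (‖x i - x j‖ • e) = K2 (x i - x j) := fun i j =>
      hrad _ _ (hte _ (norm_nonneg _))
    simp only [e1]
    have h1 : ∀ i, UC E (fun T => ∑ j, c i * c j * K1 M F (T (x i - x j))) ∧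
        M' (fun T => ∑ j, c i * c j * K1 M F (T (x i - x j))) =
          ∑ j, M' (fun T => c i * c j * K1 M F (T (x i - x j))) := fun i =>
      hI.sum Finset.univ (fun j T => c i * c j * K1 M F (T (x i - x j))) fun j =>
        uc_mul (huc _) _
    have h2 := hI.sum Finset.univ (fun i T => ∑ j, c i * c j * K1 M F (T (x i - x j)))
      fun i => (h1 i).1
    have e2 : ∑ i, ∑ j, c i * c j * K2 (x i - x j) =
        M' (fun T => ∑ i, ∑ j, c i * c j * K1 M F (T (x i - x j))) := by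
      rw [h2.2]
      refine Finset.sum_congr rfl fun i _ => ?_
      rw [(h1 i).2]
      refine Finset.sum_congr rfl fun j _ => ?_
      rw [hI.mul _ _ (huc _)]
    rw [e2]
    refine hI.pos _ h2.1 fun T => ?_
    have := K1_psd hM F n (fun i => T (x i)) c
    simpa only [← map_sub] using this
  · beta_reduce
    rw [zero_smul, hK20, Metric.tendsto_nhds]
    intro ε hε
    obtain ⟨δ, hδ, h⟩ := hFu (ε / 3) (by positivity)
    rw [eventually_nhdsWithin_iff, Metric.eventually_nhds_iff]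
    refine ⟨δ, hδ, fun t ht ht0 => ?_⟩
    rw [Real.dist_eq, sub_zero] at ht
    have h1 := hK2cont h (x := t • e) (y := 0) (by
      rw [sub_zero, norm_smul, he, mul_one, Real.norm_eq_abs]; exact ht)
    rw [hK20] at h1
    rw [Real.dist_eq]
    linarith
  · beta_reduce
    rw [zero_smul, hK20]
    have h1 : K2 (s • e) ≤ Real.exp (-ε₀ ^ 2) := by
      have h2 := hI.mono (huc (s • e)) (uc_const (Real.exp (-ε₀ ^ 2))) (fun T =>
        K1_le hM hε₀.le hsep (by rw [T.norm_map, hte s hs.le]))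
      rw [hI.const] at h2
      exact h2
    have h3 : Real.exp (-ε₀ ^ 2) < 1 := by
      rw [Real.exp_lt_one_iff]
      have : 0 < ε₀ ^ 2 := by positivity
      linarith
    intro h4
    rw [h4] at h1
    linarith

end

end Pool.Agent.U590.RT
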