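import Pool.Agent.U590.RT.Rep

/-!
# Averages over the isometry group, and the type inequality
-/

set_option autoImplicit false
set_option linter.unusedSectionVars false
set_option linter.unusedVariables false
set_option linter.deprecated false

open scoped InnerProductSpace
open Filter Topology

noncomputable section

namespace Pool.Agent.U590.RT

variable {E : Type} [NormedAddCommGroup E] [NormedSpace ℝ E] {φ : ℝ → ℝ} {H : Type}
  [NormedAddCommGroup H] [InnerProductSpace ℝ H] [CompleteSpace H] (R : Rep E φ H)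

/-- fixed by all linear isometries -/
def Fixd (v : H) : Prop := ∀ T, R.π T v = v

/-- strongly continuous for the translations -/
def SC (v : H) : Prop := ∀ ε : ℝ, 0 < ε → ∃ δ : ℝ, 0 < δ ∧ ∀ a : E, ‖a‖ < δ → ‖R.τ a v - v‖ < ε

theorem sc_closed : IsClosed {v | SC R v} := by
  rw [← isSeqClosed_iff_isClosed]
  intro s v hs hv ε hε
  rw [Metric.tendsto_atTop] at hv
  obtain ⟨N, hN⟩ := hv (ε / 3) (by positivity)
  have h1 := hN N le_rfl
  rw [dist_eq_norm] at h1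
  obtain ⟨δ, hδ, h2⟩ := hs N (ε / 3) (by positivity)
  refine ⟨δ, hδ, fun a ha => ?_⟩
  have e : R.τ a v - v = -(R.τ a (s N - v)) + (R.τ a (s N) - s N) + (s N - v) := by
    rw [map_sub]; abel
  rw [e]
  have h3 := norm_add₃_le (a := -(R.τ a (s N - v))) (b := (R.τ a (s N) - s N)) (c := (s N - v))
  rw [norm_neg, (R.τ a).norm_map] at h3
  have h4 := h2 a ha
  linarith

theorem sc_convex : Convex ℝ {v | SC R v} := by
  intro x hx y hy s t hs ht hst ε hε
  obtain ⟨δ, hδ, h1⟩ := hx ε hε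
  obtain ⟨δ', hδ', h2⟩ := hy ε hε
  refine ⟨min δ δ', lt_min hδ hδ', fun a ha => ?_⟩
  have h3 := h1 a (lt_of_lt_of_le ha (min_le_left _ _))
  have h4 := h2 a (lt_of_lt_of_le ha (min_le_right _ _))
  have e : R.τ a (s • x + t • y) - (s • x + t • y) =
      s • (R.τ a x - x) + t • (R.τ a y - y) := by
    rw [map_add, map_smul, map_smul, smul_sub, smul_sub]; abel
  rw [e]
  refine (norm_add_le _ _).trans_lt ?_
  rw [norm_smul, norm_smul, Real.norm_of_nonneg hs, Real.norm_of_nonneg ht]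
  rcases hs.eq_or_lt with h | h
  · rw [← h] at hst ⊢
    have : t = 1 := by linarith
    rw [this]; linarith
  · have h5 : s * ‖R.τ a x - x‖ < s * ε := mul_lt_mul_of_pos_left h3 h
    have h6 : t * ‖R.τ a y - y‖ ≤ t * ε := mul_le_mul_of_nonneg_left h4.le ht
    have h7 : s * ε + t * ε = ε := by rw [← add_mul, hst, one_mul]
    linarith

theorem sc_tau {v : H} (hv : SC R v) (b : E) : SC R (R.τ b v) := by
  intro ε hε
  obtain ⟨δ, hδ, h⟩ := hv ε hε
  refine ⟨δ, hδ, fun a ha => ?_⟩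
  rw [R.τ_τ, add_comm, ← R.τ_τ, ← map_sub, (R.τ b).norm_map]
  exact h a ha

theorem sc_pi {v : H} (hv : SC R v) (T : E ≃ₗᵢ[ℝ] E) : SC R (R.π T v) := by
  intro ε hε
  obtain ⟨δ, hδ, h⟩ := hv ε hε
  refine ⟨δ, hδ, fun a ha => ?_⟩
  have e : R.τ a (R.π T v) = R.π T (R.τ (T.symm a) v) := by
    rw [R.π_τ, T.apply_symm_apply]
  rw [e, ← map_sub, (R.π T).norm_map]
  exact h _ (by rw [T.symm.norm_map]; exact ha)

/-- normalised and continuous at zero -/
def Nice (φ : ℝ → ℝ) : Prop :=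
  φ 0 = 1 ∧ ∀ ε : ℝ, 0 < ε → ∃ δ : ℝ, 0 < δ ∧ ∀ t : ℝ, 0 ≤ t → t < δ → 1 - φ t < ε

theorem norm_xi (hq : Nice φ) (x : E) : ‖R.ξ x‖ = 1 := by
  have h : ‖R.ξ x‖ ^ 2 = 1 := by
    rw [← real_inner_self_eq_norm_sq, R.inner_ξ, sub_self, norm_zero, hq.1]
  exact (pow_eq_one_iff_of_nonneg (norm_nonneg _) two_ne_zero).1 h

theorem dist_xi (hq : Nice φ) (x y : E) : ‖R.ξ x - R.ξ y‖ ^ 2 = 2 * (1 - φ ‖x - y‖) := by
  rw [norm_sub_sq_real, norm_xi R hq, norm_xi R hq, R.inner_ξ]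
  ring

theorem sc_xi (hq : Nice φ) (x : E) : SC R (R.ξ x) := by
  intro ε hε
  obtain ⟨δ, hδ, h⟩ := hq.2 (ε ^ 2 / 2) (by positivity)
  refine ⟨δ, hδ, fun a ha => ?_⟩
  have h1 := h ‖a‖ (norm_nonneg _) ha
  have h2 : ‖R.τ a (R.ξ x) - R.ξ x‖ ^ 2 = 2 * (1 - φ ‖a‖) := by
    rw [R.τ_ξ, dist_xi R hq, add_sub_cancel_right]
  have h3 : ‖R.τ a (R.ξ x) - R.ξ x‖ ^ 2 < ε ^ 2 := by rw [h2]; linarith
  exact lt_of_pow_lt_pow_left₀ 2 hε.le h3

/-! ### The projection onto the fixed vectors -/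

theorem mean_rep (x : H) : ∃ y ∈ hull R.π x, (∀ T, R.π T y = y) ∧
    ∀ k : H, (∀ T, R.π T k = k) → ⟪y, k⟫_ℝ = ⟪x, k⟫_ℝ :=
  mean R.π (fun S T => ⟨T.trans S, R.π_π S T⟩) x

/-- the projection onto the fixed vectors -/
def P (x : H) : H := Classical.choose (mean_rep R x)

theorem P_mem (x : H) : P R x ∈ hull R.π x := (Classical.choose_spec (mean_rep R x)).1

theorem P_fix (x : H) : Fixd R (P R x) := (Classical.choose_spec (mean_rep R x)).2.1

theorem P_inner (x : H) {k : H} (hk : Fixd R k) : ⟪P R x, k⟫_ℝ = ⟪x, k⟫_ℝ :=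
  (Classical.choose_spec (mean_rep R x)).2.2 k hk

theorem fixd_sub {x y : H} (hx : Fixd R x) (hy : Fixd R y) : Fixd R (x - y) := fun T => by
  rw [map_sub, hx, hy]

theorem P_uniq {x y : H} (hy : Fixd R y) (h : ∀ k, Fixd R k → ⟪y, k⟫_ℝ = ⟪x, k⟫_ℝ) :
    P R x = y := by
  have h1 : Fixd R (P R x - y) := fixd_sub R (P_fix R x) hy
  have h2 : ⟪P R x - y, P R x - y⟫_ℝ = 0 := by
    rw [inner_sub_left, P_inner R x h1, h _ h1, sub_self]
  exact sub_eq_zero.1 (inner_self_eq_zero.1 h2)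

theorem P_pi (T : E ≃ₗᵢ[ℝ] E) (x : H) : P R (R.π T x) = P R x := by
  refine P_uniq R (P_fix R x) fun k hk => ?_
  rw [P_inner R x hk]
  conv_rhs => rw [← hk T]
  exact ((R.π T).inner_map_map x k).symm

theorem P_dist (x y : H) : ‖P R x - P R y‖ ≤ ‖x - y‖ := by
  have h1 : Fixd R (P R x - P R y) := fixd_sub R (P_fix R x) (P_fix R y)
  have h2 : ‖P R x - P R y‖ ^ 2 = ⟪x - y, P R x - P R y⟫_ℝ := by
    rw [← real_inner_self_eq_norm_sq, inner_sub_left, P_inner R x h1, P_inner R y h1,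
      ← inner_sub_left]
  have h3 := real_inner_le_norm (x - y) (P R x - P R y)
  rw [← h2] at h3
  by_contra hcon
  push Not at hcon
  have h4 : 0 < ‖P R x - P R y‖ := lt_of_le_of_lt (norm_nonneg _) hcon
  nlinarith

theorem P_norm (x : H) : ‖x - P R x‖ ^ 2 = ‖x‖ ^ 2 - ‖P R x‖ ^ 2 := by
  rw [norm_sub_sq_real, ← P_inner R x (P_fix R x), real_inner_self_eq_norm_sq]
  ring

theorem P_le (x : H) : ‖P R x‖ ≤ ‖x‖ := by
  have h := P_norm R x
  have h1 := sq_nonneg ‖x - P R x‖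
  exact abs_le_of_sq_le_sq' (by linarith) (norm_nonneg _) |>.2

theorem sc_P {x : H} (hx : SC R x) : SC R (P R x) :=
  hull_le R.π x (sc_closed R) (sc_convex R) (fun T => sc_pi R hx T) (P_mem R x)

theorem P_tau (hE : AlmostTransitive E) {v : H} (hf : Fixd R v) (hs : SC R v) {a b : E}
    (hab : ‖a‖ = ‖b‖) : P R (R.τ a v) = P R (R.τ b v) := by
  by_cases ha : a = 0
  · have hb : b = 0 := by rw [ha, norm_zero] at hab; exact norm_eq_zero.1 hab.symm
    rw [ha, hb]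
  have hapos : 0 < ‖a‖ := norm_pos_iff.2 ha
  rw [← sub_eq_zero, ← norm_eq_zero]
  refine le_antisymm (le_of_forall_pos_le_add fun ε hε => ?_) (norm_nonneg _)
  rw [zero_add]
  obtain ⟨δ, hδ, h⟩ := hs ε hε
  obtain ⟨T, hT⟩ := hE (‖a‖⁻¹ • a) (‖a‖⁻¹ • b)
    (by rw [norm_smul, norm_inv, norm_norm, inv_mul_cancel₀ hapos.ne'])
    (by rw [norm_smul, norm_inv, norm_norm, ← hab, inv_mul_cancel₀ hapos.ne'])
    (δ / ‖a‖) (by positivity)
  have h1 : ‖T a - b‖ < δ := by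
    have e : T (‖a‖⁻¹ • a) - ‖a‖⁻¹ • b = ‖a‖⁻¹ • (T a - b) := by
      rw [smul_sub, map_smul]
    rw [e, norm_smul, norm_inv, norm_norm, inv_mul_eq_div, div_lt_div_iff_of_pos_right hapos] at hT
    exact hT
  have e1 : P R (R.τ a v) = P R (R.τ (T a) v) := by
    rw [← P_pi R T (R.τ a v), R.π_τ, hf T]
  rw [e1]
  refine (P_dist R _ _).trans ?_
  have e2 : R.τ (T a) v - R.τ b v = R.τ b (R.τ (T a - b) v - v) := by
    rw [map_sub, R.τ_τ, add_sub_cancel]
  rw [e2, (R.τ b).norm_map]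
  exact (h _ h1).le

theorem inner_tau (a : E) (v w : H) : ⟪R.τ a v, w⟫_ℝ = ⟪v, R.τ (-a) w⟫_ℝ := by
  have h := (R.τ (-a)).inner_map_map (R.τ a v) w
  rw [R.τ_τ, neg_add_cancel, R.τ_zero] at h
  exact h.symm

theorem adj (hE : AlmostTransitive E) {v w : H} (hv : Fixd R v) (hw : Fixd R w)
    (hsw : SC R w) (a : E) : ⟪P R (R.τ a v), w⟫_ℝ = ⟪v, P R (R.τ a w)⟫_ℝ := by
  rw [P_inner R _ hw, inner_tau, real_inner_comm, ← P_inner R _ hv, real_inner_comm,
    P_tau R hE hw hsw (a := -a) (b := a) (norm_neg a)]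

/-! ### The iterates -/

/-- the vectors `A ^ n ξ₀` -/
def zt (a : E) : ℕ → H
  | 0 => R.ξ 0
  | n + 1 => P R (R.τ a (zt a n))

theorem zt_fix (a : E) (n : ℕ) : Fixd R (zt R a n) := by
  cases n with
  | zero => intro T; change R.π T (R.ξ 0) = R.ξ 0; rw [R.π_ξ, map_zero]
  | succ n => exact P_fix R _

theorem zt_sc (hq : Nice φ) (a : E) (n : ℕ) : SC R (zt R a n) := by
  induction n with
  | zero => exact sc_xi R hq 0
  | succ n ih => exact sc_P R (sc_tau R ih a)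

theorem zt_zero (hq : Nice φ) (a : E) : ‖zt R a 0‖ = 1 := norm_xi R hq 0

theorem zt_anti (a : E) (n : ℕ) : ‖zt R a (n + 1)‖ ≤ ‖zt R a n‖ := by
  refine (P_le R _).trans ?_
  rw [(R.τ a).norm_map]

theorem zt_convex (hq : Nice φ) (hE : AlmostTransitive E) (a : E) (n : ℕ) :
    ‖zt R a (n + 1)‖ ^ 2 ≤ ‖zt R a n‖ * ‖zt R a (n + 2)‖ := by
  have h1 : ⟪zt R a (n + 1), zt R a (n + 1)⟫_ℝ = ⟪zt R a n, zt R a (n + 2)⟫_ℝ :=
    adj R hE (zt_fix R a n) (zt_fix R a (n + 1)) (zt_sc R hq a (n + 1)) a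
  rw [← real_inner_self_eq_norm_sq, h1]
  exact real_inner_le_norm _ _

/-- Ratio bound for log-convex decreasing sequences. -/
theorem ratio {N : ℕ → ℝ} (h0 : N 0 = 1) (hn : ∀ k, 0 ≤ N k) (ha : ∀ k, N (k + 1) ≤ N k)
    (hc : ∀ k, N (k + 1) ^ 2 ≤ N k * N (k + 2)) {m : ℕ} (hm : 1 ≤ m) {κ : ℝ} (hκ : 0 < κ)
    (hNm : κ ≤ N m) : N m ^ 2 - N (m + 1) ^ 2 ≤ 2 * (Real.log (1 / κ) / m) * N m ^ 2 := by
  have hNm0 : 0 < N m := lt_of_lt_of_le hκ hNm
  have hmR : (0 : ℝ) < m := by exact_mod_cast hm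
  have hanti : Antitone N := antitone_nat_of_succ_le ha
  have hpos : ∀ k, k ≤ m → 0 < N k := fun k hk => lt_of_lt_of_le hNm0 (hanti hk)
  set r := N (m + 1) / N m with hr
  have hr0 : 0 ≤ r := div_nonneg (hn _) hNm0.le
  have hr1 : r ≤ 1 := (div_le_one hNm0).2 (ha m)
  have hNr : N (m + 1) = r * N m := by rw [hr]; field_simp
  -- ratios increase
  have h1 : ∀ j, j ≤ m → N (m - j + 1) ≤ r * N (m - j) := by
    intro j
    induction j with
    | zero => intro _; rw [Nat.sub_zero, hNr]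
    | succ j ih =>
      intro hj
      have ih' := ih (by omega)
      have e1 : m - (j + 1) + 1 = m - j := by omega
      have h2 := hc (m - (j + 1))
      have e2 : m - (j + 1) + 2 = m - j + 1 := by omega
      rw [e1, e2] at h2
      rw [e1]
      have hp1 := hpos (m - j) (by omega)
      have hp2 := hpos (m - (j + 1)) (by omega)
      have h3 : N (m - j) * N (m - j) ≤ N (m - j) * (r * N (m - (j + 1))) := by
        calc N (m - j) * N (m - j) = N (m - j) ^ 2 := by ring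
          _ ≤ N (m - (j + 1)) * N (m - j + 1) := h2
          _ ≤ N (m - (j + 1)) * (r * N (m - j)) := mul_le_mul_of_nonneg_left ih' hp2.le
          _ = N (m - j) * (r * N (m - (j + 1))) := by ring
      exact le_of_mul_le_mul_left h3 hp1
  have h2 : ∀ k, k ≤ m → N k ≤ r ^ k := by
    intro k
    induction k with
    | zero => intro _; rw [h0, pow_zero]
    | succ k ih =>
      intro hk
      have h3 := h1 (m - k) (by omega)
      have e : m - (m - k) = k := by omega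
      rw [e] at h3
      calc N (k + 1) ≤ r * N k := h3
        _ ≤ r * r ^ k := mul_le_mul_of_nonneg_left (ih (by omega)) hr0
        _ = r ^ (k + 1) := by ring
  have h3 : κ ≤ Real.exp (-(m * (1 - r))) := by
    have h4 : r ≤ Real.exp (-(1 - r)) := by
      have := Real.add_one_le_exp (-(1 - r))
      linarith
    calc κ ≤ N m := hNm
      _ ≤ r ^ m := h2 m le_rfl
      _ ≤ Real.exp (-(1 - r)) ^ m := pow_le_pow_left₀ hr0 h4 m
      _ = Real.exp (-(m * (1 - r))) := by rw [← Real.exp_nat_mul]; congr 1; ring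
  have h4 : 1 - r ≤ Real.log (1 / κ) / m := by
    rw [le_div_iff₀ hmR, Real.log_div one_ne_zero hκ.ne', Real.log_one, zero_sub]
    have h5 := Real.log_le_log hκ h3
    rw [Real.log_exp] at h5
    linarith
  rw [hNr]
  have h5 : 1 - r ^ 2 ≤ 2 * (Real.log (1 / κ) / m) := by nlinarith
  have h6 := mul_le_mul_of_nonneg_right h5 (sq_nonneg (N m))
  nlinarith

/-! ### Vectors with small spread -/

/-- convex combinations of `ξ x` with mean of `‖x‖` at most `ρ` -/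
def D (ρ : ℝ) : Set H := {z | ∃ (κ : Type) (_ : Fintype κ) (w : κ → ℝ) (x : κ → E),
  (∀ i, 0 ≤ w i) ∧ ∑ i, w i = 1 ∧ ∑ i, w i * ‖x i‖ ≤ ρ ∧ z = ∑ i, w i • R.ξ (x i)}

theorem D_convex (ρ : ℝ) : Convex ℝ (D R ρ) := by
  rintro _ ⟨κ, i1, w, x, hw, hw1, hw2, rfl⟩ _ ⟨κ', i2, w', x', hw', hw1', hw2', rfl⟩ s t hs ht hst
  refine ⟨κ ⊕ κ', inferInstance, Sum.elim (fun i => s * w i) (fun i => t * w' i),
    Sum.elim x x', ?_, ?_, ?_, ?_⟩
  · rintro (i | i)
    · exact mul_nonneg hs (hw i)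
    · exact mul_nonneg ht (hw' i)
  · simp only [Fintype.sum_sum_type, Sum.elim_inl, Sum.elim_inr, ← Finset.mul_sum, hw1, hw1']
    linarith
  · simp only [Fintype.sum_sum_type, Sum.elim_inl, Sum.elim_inr, mul_assoc, ← Finset.mul_sum]
    calc s * ∑ i, w i * ‖x i‖ + t * ∑ i, w' i * ‖x' i‖ ≤ s * ρ + t * ρ :=
          add_le_add (mul_le_mul_of_nonneg_left hw2 hs) (mul_le_mul_of_nonneg_left hw2' ht)
      _ = ρ := by rw [← add_mul, hst, one_mul]
  · simp only [Fintype.sum_sum_type, Sum.elim_inl, Sum.elim_inr, Finset.smul_sum, smul_smul]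

theorem dsum {κ : Type} [Fintype κ] (w n : κ → ℝ) (hw : ∑ i, w i = 1) (α β : ℝ) :
    ∑ i, ∑ j, w i * w j * (α + β * (n i + n j)) = α + 2 * β * ∑ i, w i * n i := by
  have h1 : ∀ i, ∑ j, w i * w j * (α + β * (n i + n j)) =
      w i * (α + β * n i + β * ∑ j, w j * n j) := by
    intro i
    have : ∀ j, w i * w j * (α + β * (n i + n j)) =
        (w i * (α + β * n i)) * w j + (w i * β) * (w j * n j) := fun j => by ring
    simp only [this]
    rw [Finset.sum_add_distrib, ← Finset.mul_sum, ← Finset.mul_sum, hw]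
    ring
  simp only [h1]
  have h2 : ∀ i, w i * (α + β * n i + β * ∑ j, w j * n j) =
      (α + β * ∑ j, w j * n j) * w i + β * (w i * n i) := fun i => by ring
  simp only [h2]
  rw [Finset.sum_add_distrib, ← Finset.mul_sum, ← Finset.mul_sum, hw]
  ring

theorem D_inner {κ : Type} [Fintype κ] (w : κ → ℝ) (x : κ → E) (u : E) :
    ⟪R.τ u (∑ i, w i • R.ξ (x i)), ∑ i, w i • R.ξ (x i)⟫_ℝ =
      ∑ i, ∑ j, w i * w j * φ ‖u + x i - x j‖ := by
  rw [map_sum, sum_inner]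
  refine Finset.sum_congr rfl fun i _ => ?_
  rw [inner_sum]
  refine Finset.sum_congr rfl fun j _ => ?_
  rw [map_smul, R.τ_ξ, real_inner_smul_left, real_inner_smul_right, R.inner_ξ]
  ring

theorem D_lower {η r₀ ρ : ℝ} (hη : 0 ≤ η) (hr₀ : 0 < r₀) (hρ : 0 ≤ ρ) (hlow : ∀ t, 0 ≤ t → -1 ≤ φ t)
    (hcl : ∀ t, 0 ≤ t → t ≤ r₀ → 1 - η ≤ φ t) {z : H} (hz : z ∈ closure (D R ρ)) :
    1 - η - 4 * ρ / r₀ ≤ ‖z‖ ^ 2 := by
  have h1 : D R ρ ⊆ {z | 1 - η - 4 * ρ / r₀ ≤ ‖z‖ ^ 2} := by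
    rintro _ ⟨κ, i1, w, x, hw, hw1, hw2, rfl⟩
    rw [Set.mem_setOf_eq, ← real_inner_self_eq_norm_sq]
    have h2 := D_inner R w x 0
    rw [R.τ_zero] at h2
    rw [h2]
    have h3 := dsum w (fun i => ‖x i‖) hw1 (1 - η) (-(2 / r₀))
    have h4 : ∑ i, ∑ j, w i * w j * ((1 - η) + -(2 / r₀) * (‖x i‖ + ‖x j‖)) ≤
        ∑ i, ∑ j, w i * w j * φ ‖0 + x i - x j‖ := by
      refine Finset.sum_le_sum fun i _ => Finset.sum_le_sum fun j _ => ?_
      refine mul_le_mul_of_nonneg_left ?_ (mul_nonneg (hw i) (hw j))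
      rw [zero_add]
      have h5 := norm_sub_le (x i) (x j)
      rcases le_or_gt ‖x i - x j‖ r₀ with h | h
      · have h6 := hcl _ (norm_nonneg _) h
        have h7 : 0 ≤ 2 / r₀ * (‖x i‖ + ‖x j‖) := by positivity
        linarith
      · have h6 : 2 ≤ 2 / r₀ * (‖x i‖ + ‖x j‖) := by
          rw [div_mul_eq_mul_div, le_div_iff₀ hr₀]
          linarith
        have := hlow ‖x i - x j‖ (norm_nonneg _)
        linarith
    rw [h3] at h4
    refine le_trans ?_ h4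
    have h5 : 2 / r₀ * ∑ i, w i * ‖x i‖ ≤ 2 / r₀ * ρ :=
      mul_le_mul_of_nonneg_left hw2 (by positivity)
    have h6 : 4 * ρ / r₀ = 2 * (2 / r₀ * ρ) := by ring
    linarith
  exact closure_minimal h1 (isClosed_le (by fun_prop) (by fun_prop)) hz

theorem D_upper {η r₀ ρ : ℝ} (hη : 0 ≤ η) (hr₀ : 0 < r₀) (hρ : 0 ≤ ρ) {u : E}
    (hup : ∀ w : E, φ ‖u + w‖ ≤ φ ‖u‖ + 2)
    (hcl : ∀ w : E, ‖w‖ ≤ r₀ → φ ‖u + w‖ ≤ φ ‖u‖ + η) {z : H} (hz : z ∈ closure (D R ρ)) :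
    ⟪R.τ u z, z⟫_ℝ ≤ φ ‖u‖ + η + 4 * ρ / r₀ := by
  have h1 : D R ρ ⊆ {z | ⟪R.τ u z, z⟫_ℝ ≤ φ ‖u‖ + η + 4 * ρ / r₀} := by
    rintro _ ⟨κ, i1, w, x, hw, hw1, hw2, rfl⟩
    rw [Set.mem_setOf_eq, D_inner]
    have h3 := dsum w (fun i => ‖x i‖) hw1 (φ ‖u‖ + η) (2 / r₀)
    have h4 : ∑ i, ∑ j, w i * w j * φ ‖u + x i - x j‖ ≤
        ∑ i, ∑ j, w i * w j * ((φ ‖u‖ + η) + 2 / r₀ * (‖x i‖ + ‖x j‖)) := by
      refine Finset.sum_le_sum fun i _ => Finset.sum_le_sum fun j _ => ?_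
      refine mul_le_mul_of_nonneg_left ?_ (mul_nonneg (hw i) (hw j))
      have h5 := norm_sub_le (x i) (x j)
      rw [add_sub_assoc]
      rcases le_or_gt ‖x i - x j‖ r₀ with h | h
      · have h6 := hcl _ h
        have h7 : 0 ≤ 2 / r₀ * (‖x i‖ + ‖x j‖) := by positivity
        linarith
      · have h6 : 2 ≤ 2 / r₀ * (‖x i‖ + ‖x j‖) := by
          rw [div_mul_eq_mul_div, le_div_iff₀ hr₀]
          linarith
        have := hup (x i - x j)
        linarith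
    rw [h3] at h4
    refine h4.trans ?_
    have h5 : 2 / r₀ * ∑ i, w i * ‖x i‖ ≤ 2 / r₀ * ρ :=
      mul_le_mul_of_nonneg_left hw2 (by positivity)
    have h6 : 4 * ρ / r₀ = 2 * (2 / r₀ * ρ) := by ring
    linarith
  refine closure_minimal h1 (isClosed_le ?_ (by fun_prop)) hz
  exact ((R.τ u).continuous).inner continuous_id

/-! ### Sign averages -/

/-- the sum with signs -/
def sgs {n : ℕ} (ε : Fin n → Bool) (y : Fin n → E) : E := ∑ i, (if ε i then y i else -y i)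

/-- sign averages of `n` vectors of norm `δ` -/
def Y (n : ℕ) (δ : ℝ) : Set H := {z | ∃ y : Fin n → E, (∀ i, ‖y i‖ = δ) ∧
  z = ((2 : ℝ) ^ n)⁻¹ • ∑ ε : Fin n → Bool, R.ξ (sgs ε y)}

theorem sum_cons {M : Type} [AddCommMonoid M] {n : ℕ} (F : (Fin (n + 1) → Bool) → M) :
    ∑ ε : Fin (n + 1) → Bool, F ε =
      ∑ ε : Fin n → Bool, (F (Fin.cons true ε) + F (Fin.cons false ε)) := by
  rw [← Equiv.sum_comp (Fin.consEquiv (fun _ : Fin (n + 1) => Bool)), Fintype.sum_prod_type,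
    Fintype.sum_bool, Finset.sum_add_distrib]
  rfl

theorem sgs_cons {n : ℕ} (b : Bool) (ε : Fin n → Bool) (a : E) (y : Fin n → E) :
    sgs (Fin.cons b ε : Fin (n + 1) → Bool) (Fin.cons a y) = (if b then a else -a) + sgs ε y := by
  unfold sgs
  rw [Fin.sum_univ_succ]
  simp only [Fin.cons_zero, Fin.cons_succ]

theorem Y_step {n : ℕ} {δ : ℝ} {b : E} (hb : ‖b‖ = δ) {z : H} (hz : z ∈ Y R n δ) :
    (2 : ℝ)⁻¹ • (R.τ b z + R.τ (-b) z) ∈ Y R (n + 1) δ := by
  obtain ⟨y, hy, rfl⟩ := hz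
  refine ⟨Fin.cons b y, ?_, ?_⟩
  · intro i
    refine Fin.cases ?_ (fun i => ?_) i
    · simpa using hb
    · simpa using hy i
  · rw [sum_cons]
    simp only [sgs_cons, if_true, Bool.false_eq_true, if_false]
    rw [map_smul, map_smul, map_sum, map_sum, ← smul_add, smul_smul, ← Finset.sum_add_distrib]
    congr 1
    · rw [pow_succ, mul_inv]; ring
    · refine Finset.sum_congr rfl fun ε _ => ?_
      rw [R.τ_ξ, R.τ_ξ]

theorem zt_mem (a : E) (n : ℕ) : zt R a n ∈ closure (convexHull ℝ (Y R n ‖a‖)) := by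
  induction n with
  | zero =>
    refine subset_closure (subset_convexHull ℝ _ ⟨Fin.elim0, fun i => i.elim0, ?_⟩)
    simp [zt, sgs]
  | succ n ih =>
    set C := closure (convexHull ℝ (Y R (n + 1) ‖a‖)) with hC
    have hCc : IsClosed C := isClosed_closure
    have hCv : Convex ℝ C := (convex_convexHull ℝ _).closure
    set v := zt R a n with hv
    have hvf : Fixd R v := zt_fix R a n
    -- the symmetrised translates
    have hM : ∀ b : E, ‖b‖ = ‖a‖ → (2 : ℝ)⁻¹ • (R.τ b v + R.τ (-b) v) ∈ C := by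
      intro b hb
      set M : H →L[ℝ] H := (2 : ℝ)⁻¹ • ((R.τ b).toContinuousLinearMap +
        (R.τ (-b)).toContinuousLinearMap) with hM
      have hMa : ∀ z, M z = (2 : ℝ)⁻¹ • (R.τ b z + R.τ (-b) z) := fun z => rfl
      have h1 : closure (convexHull ℝ (Y R n ‖a‖)) ⊆ M ⁻¹' C := by
        refine closure_minimal (convexHull_min ?_ ?_) (hCc.preimage M.continuous)
        · intro z hz
          change M z ∈ C
          rw [hMa]
          exact subset_closure (subset_convexHull ℝ _ (Y_step R hb hz))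
        · exact hCv.linear_preimage M.toLinearMap
      have h2 := h1 ih
      change M v ∈ C at h2
      rwa [hMa] at h2
    set x := (2 : ℝ)⁻¹ • (R.τ a v + R.τ (-a) v) with hx
    -- the value of the projection at the symmetrised vector
    have hP : zt R a (n + 1) = P R (R.τ a v) := rfl
    have h1 : hull R.π x ⊆ C := by
      refine hull_le R.π x hCc hCv fun T => ?_
      have e : R.π T x = (2 : ℝ)⁻¹ • (R.τ (T a) v + R.τ (-(T a)) v) := by
        rw [hx, map_smul, map_add, R.π_τ, R.π_τ, hvf T, map_neg]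
      rw [e]
      exact hM _ (T.norm_map a)
    have h2 : P R (R.τ (-a) v) = P R (R.τ a v) := by
      have e : R.π (LinearIsometryEquiv.neg ℝ) (R.τ a v) = R.τ (-a) v := by
        rw [R.π_τ, hvf]
        simp
      rw [← e, P_pi]
    have h3 : P R x = P R (R.τ a v) := by
      refine P_uniq R (P_fix R _) fun k hk => ?_
      rw [hx, real_inner_smul_left, inner_add_left, ← P_inner R (R.τ a v) hk,
        ← P_inner R (R.τ (-a) v) hk, h2]
      ring
    rw [hP, ← h3]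
    exact h1 (P_mem R x)

end Pool.Agent.U590.RT
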