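import Pool.Agent.U590.RT.Amen

/-!
# Hilbert spaces have Rademacher type `r` for `r < 2`
-/

set_option autoImplicit false
set_option linter.unusedSectionVars false
set_option linter.unusedVariables false
set_option linter.deprecated false

open scoped InnerProductSpace ENNReal
open Filter Topology MeasureTheory

noncomputable section

namespace Pool.Agent.U590.RT

theorem sgs_sq {H : Type} [NormedAddCommGroup H] [InnerProductSpace ℝ H] (n : ℕ) :
    ∀ x : Fin n → H, ∑ ε : Fin n → Bool, ‖sgs ε x‖ ^ 2 = 2 ^ n * ∑ i, ‖x i‖ ^ 2 := by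
  induction n with
  | zero => intro x; simp [sgs]
  | succ n ih =>
    intro x
    have hx : x = Fin.cons (x 0) (fun i => x i.succ) := (Fin.cons_self_tail x).symm
    rw [hx, sum_cons]
    simp only [sgs_cons, if_true, Bool.false_eq_true, if_false]
    have h1 : ∀ ε : Fin n → Bool, ‖x 0 + sgs ε (fun i => x i.succ)‖ ^ 2 +
        ‖-x 0 + sgs ε (fun i => x i.succ)‖ ^ 2 =
        2 * ‖x 0‖ ^ 2 + 2 * ‖sgs ε (fun i => x i.succ)‖ ^ 2 := by
      intro ε
      rw [norm_add_sq_real, norm_add_sq_real, inner_neg_left, norm_neg]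
      ring
    simp only [h1]
    have h2 := ih (fun i => x i.succ)
    have h3 : ∑ ε : Fin n → Bool, 2 * ‖sgs ε (fun i => x i.succ)‖ ^ 2 =
        2 * ∑ ε : Fin n → Bool, ‖sgs ε (fun i => x i.succ)‖ ^ 2 := by
      rw [Finset.mul_sum]
    rw [Finset.sum_add_distrib, h3, h2, Finset.sum_const,
      Finset.card_univ, Fintype.card_fun, Fintype.card_bool, Fintype.card_fin, nsmul_eq_mul,
      Fin.sum_univ_succ]
    simp only [Fin.cons_zero, Fin.cons_succ]
    push_cast
    ring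

theorem l2_le {n : ℕ} (a : Fin n → ℝ) (ha : ∀ i, 0 ≤ a i) {r : ℝ} (hr : 0 < r) (hr2 : r < 2) :
    ∑ i, a i ^ 2 ≤ ((∑ i, a i ^ r) ^ (1 / r)) ^ 2 := by
  set T : ℝ := ∑ i, a i ^ r with hT
  have hT0 : 0 ≤ T := Finset.sum_nonneg fun i _ => Real.rpow_nonneg (ha i) _
  set S : ℝ := T ^ (1 / r) with hS
  have hS0 : 0 ≤ S := Real.rpow_nonneg hT0 _
  have hSr : S ^ r = T := by
    rw [hS, ← Real.rpow_mul hT0, one_div, inv_mul_cancel₀ hr.ne', Real.rpow_one]
  have hle : ∀ i, a i ≤ S := by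
    intro i
    have h1 : a i ^ r ≤ T :=
      Finset.single_le_sum (f := fun i => a i ^ r) (fun i _ => Real.rpow_nonneg (ha i) _)
        (Finset.mem_univ i)
    rw [← hSr] at h1
    exact (Real.rpow_le_rpow_iff (ha i) hS0 hr).1 h1
  rcases hS0.eq_or_lt with h | h
  · have : ∀ i, a i = 0 := fun i => le_antisymm (by rw [h]; exact hle i) (ha i)
    simp [this]
    positivity
  · have h1 : ∀ i, a i ^ 2 ≤ S ^ (2 - r) * a i ^ r := by
      intro i
      rcases (ha i).eq_or_lt with h0 | h0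
      · rw [← h0, Real.zero_rpow hr.ne']; simp
      · have e : a i ^ 2 = a i ^ (2 - r) * a i ^ r := by
          rw [← Real.rpow_add h0, ← Real.rpow_two]; congr 1; ring
        rw [e]
        exact mul_le_mul_of_nonneg_right (Real.rpow_le_rpow (ha i) (hle i) (by linarith))
          (Real.rpow_nonneg (ha i) _)
    calc ∑ i, a i ^ 2 ≤ ∑ i, S ^ (2 - r) * a i ^ r := Finset.sum_le_sum fun i _ => h1 i
      _ = S ^ (2 - r) * S ^ r := by rw [← Finset.mul_sum, ← hT, hSr]
      _ = S ^ 2 := by rw [← Real.rpow_add h, ← Real.rpow_two]; congr 1; ring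

theorem hilbert_type {H : Type} [NormedAddCommGroup H] [InnerProductSpace ℝ H] {r : ℝ}
    (hr : 0 < r) (hr2 : r < 2) : HasType H r := by
  refine ⟨1, fun n x => ?_⟩
  rw [one_mul, div_le_iff₀ (by positivity)]
  have h1 : (∑ ε : Fin n → Bool, ‖∑ i, (if ε i then x i else -x i)‖) ^ 2 ≤
      2 ^ n * ∑ ε : Fin n → Bool, ‖∑ i, (if ε i then x i else -x i)‖ ^ 2 := by
    have h := sq_sum_le_card_mul_sum_sq (s := (Finset.univ : Finset (Fin n → Bool)))
      (f := fun ε => ‖∑ i, (if ε i then x i else -x i)‖)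
    rw [Finset.card_univ, Fintype.card_fun, Fintype.card_bool, Fintype.card_fin] at h
    push_cast at h
    exact h
  have h2 : ∑ ε : Fin n → Bool, ‖∑ i, (if ε i then x i else -x i)‖ ^ 2 =
      2 ^ n * ∑ i, ‖x i‖ ^ 2 := sgs_sq n x
  rw [h2] at h1
  have h3 := l2_le (fun i => ‖x i‖) (fun i => norm_nonneg _) hr hr2
  have h4 : (0 : ℝ) ≤ (∑ i, ‖x i‖ ^ r) ^ (1 / r) := by positivity
  have h5 : (∑ ε : Fin n → Bool, ‖∑ i, (if ε i then x i else -x i)‖) ^ 2 ≤
      ((∑ i, ‖x i‖ ^ r) ^ (1 / r) * 2 ^ n) ^ 2 := by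
    rw [mul_pow]
    have h6 : (0 : ℝ) < 2 ^ n := by positivity
    nlinarith [mul_le_mul_of_nonneg_left h3 (by positivity : (0 : ℝ) ≤ 2 ^ n * 2 ^ n)]
  exact le_of_sq_le_sq h5 (by positivity)

theorem type_of_equiv {E H : Type} [NormedAddCommGroup E] [NormedSpace ℝ E]
    [NormedAddCommGroup H] [NormedSpace ℝ H] (Φ : E ≃ₗᵢ[ℝ] H) {r : ℝ} (h : HasType H r) :
    HasType E r := by
  obtain ⟨C, hC⟩ := h
  refine ⟨C, fun n x => ?_⟩
  have h1 := hC n (fun i => Φ (x i))
  have e1 : ∀ ε : Fin n → Bool, ‖∑ i, (if ε i then Φ (x i) else -Φ (x i))‖ =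
      ‖∑ i, (if ε i then x i else -x i)‖ := by
    intro ε
    rw [← Φ.norm_map (∑ i, (if ε i then x i else -x i)), map_sum]
    congr 1
    refine Finset.sum_congr rfl fun i _ => ?_
    split_ifs
    · rfl
    · rw [map_neg]
  simp only [e1, Φ.norm_map] at h1
  exact h1

theorem neg_of_equiv {E H : Type} [NormedAddCommGroup E] [NormedSpace ℝ E]
    [NormedAddCommGroup H] [NormedSpace ℝ H] (Φ : E ≃ₗᵢ[ℝ] H) {r : ℝ} (h : NegType H r) :
    NegType E r := by
  intro n x c hc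
  have h1 := h n (fun i => Φ (x i)) c hc
  simpa only [← map_sub, Φ.norm_map] using h1

end Pool.Agent.U590.RT
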