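import Mathlib

/-!
# The real-variable part
-/

set_option autoImplicit false
set_option linter.unusedSectionVars false
set_option linter.unusedVariables false
set_option linter.deprecated false

open Filter Topology MeasureTheory

noncomputable section

namespace Pool.Agent.U590.RT

/-- the integrand -/
def gg (f : ℝ → ℝ) (β : ℝ) (t : ℝ) : ℝ := f t * t ^ (-β - 1)

theorem gg_cont {f : ℝ → ℝ} (hf : Continuous f) (β : ℝ) : ContinuousOn (gg f β) (Set.Ioi 0) := by
  unfold gg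
  refine hf.continuousOn.mul fun t ht => ?_
  exact (Real.continuousAt_rpow_const t _ (Or.inl (ne_of_gt ht))).continuousWithinAt

theorem gg_int {f : ℝ → ℝ} (hf : Continuous f) (β : ℝ) {a b : ℝ} (ha : 0 < a) (hb : 0 < b) :
    IntervalIntegrable (gg f β) volume a b := by
  refine ((gg_cont hf β).mono ?_).intervalIntegrable
  intro t ht
  have := (Set.mem_uIcc.1 ht)
  rcases this with h | h
  · exact lt_of_lt_of_le ha h.1
  · exact lt_of_lt_of_le hb h.1

/-- the primitive -/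
def GG (f : ℝ → ℝ) (β : ℝ) (u : ℝ) : ℝ := ∫ t in (1 : ℝ)..u, gg f β t

theorem GG_sub {f : ℝ → ℝ} (hf : Continuous f) (β : ℝ) {a b : ℝ} (ha : 0 < a) (hb : 0 < b) :
    GG f β b - GG f β a = ∫ t in a..b, gg f β t :=
  intervalIntegral.integral_interval_sub_left (gg_int hf β one_pos hb) (gg_int hf β one_pos ha)

theorem gg_nonneg {f : ℝ → ℝ} (h0 : ∀ t, 0 ≤ f t) (β : ℝ) {t : ℝ} (ht : 0 ≤ t) : 0 ≤ gg f β t :=
  mul_nonneg (h0 t) (Real.rpow_nonneg ht _)

theorem GG_mono {f : ℝ → ℝ} (hf : Continuous f) (h0 : ∀ t, 0 ≤ f t) (β : ℝ) {a b : ℝ}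
    (ha : 0 < a) (hab : a ≤ b) : GG f β a ≤ GG f β b := by
  have h1 := GG_sub hf β ha (lt_of_lt_of_le ha hab)
  have h2 : 0 ≤ ∫ t in a..b, gg f β t :=
    intervalIntegral.integral_nonneg hab fun t ht => gg_nonneg h0 β (ha.le.trans ht.1)
  linarith

/-- upper bound on a window -/
theorem GG_upper {f : ℝ → ℝ} (hf : Continuous f) (h0 : ∀ t, 0 ≤ f t) {β : ℝ} (hβ : 0 < β)
    {a b M : ℝ} (ha : 0 < a) (hab : a ≤ b) (hM : ∀ t, 0 ≤ t → t ≤ b → f t ≤ M) :
    GG f β b - GG f β a ≤ M * a ^ (-β - 1) * b := by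
  rw [GG_sub hf β ha (lt_of_lt_of_le ha hab)]
  have hM0 : 0 ≤ M := (h0 a).trans (hM a ha.le hab)
  have h1 : ‖∫ t in a..b, gg f β t‖ ≤ M * a ^ (-β - 1) * |b - a| := by
    refine intervalIntegral.norm_integral_le_of_norm_le_const fun t ht => ?_
    rw [Set.uIoc_of_le hab] at ht
    have ht0 : 0 < t := ha.trans ht.1
    rw [Real.norm_of_nonneg (gg_nonneg h0 β ht0.le)]
    unfold gg
    refine mul_le_mul (hM t ht0.le ht.2) ?_ (Real.rpow_nonneg ht0.le _) hM0
    exact Real.rpow_le_rpow_of_nonpos ha ht.1.le (by linarith)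
  have h2 : |b - a| ≤ b := by rw [abs_of_nonneg (by linarith)]; linarith
  have h3 : 0 ≤ M * a ^ (-β - 1) := mul_nonneg hM0 (Real.rpow_nonneg ha.le _)
  exact (le_abs_self _).trans (h1.trans (mul_le_mul_of_nonneg_left h2 h3))

/-- lower bound on the window `[s, 2 s]` -/
theorem GG_lower {f : ℝ → ℝ} (hf : Continuous f) (h0 : ∀ t, 0 ≤ f t) {β : ℝ} (hβ : 0 < β)
    {s M : ℝ} (hs : 0 < s) (hM0 : 0 ≤ M) (hM : ∀ t, s ≤ t → M ≤ f t) :
    M * (2 * s) ^ (-β - 1) * s ≤ GG f β (2 * s) - GG f β s := by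
  rw [GG_sub hf β hs (by positivity)]
  have h1 : ∫ t in s..(2 * s), M * (2 * s) ^ (-β - 1) ≤ ∫ t in s..(2 * s), gg f β t := by
    refine intervalIntegral.integral_mono_on (by linarith) (by simp)
      (gg_int hf β hs (by positivity)) fun t ht => ?_
    have ht0 : 0 < t := lt_of_lt_of_le hs ht.1
    unfold gg
    refine mul_le_mul (hM t ht.1) ?_ (Real.rpow_nonneg (by positivity) _) (h0 t)
    exact Real.rpow_le_rpow_of_nonpos ht0 ht.2 (by linarith)
  rw [intervalIntegral.integral_const, smul_eq_mul] at h1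
  have e : (2 * s - s) * (M * (2 * s) ^ (-β - 1)) = M * (2 * s) ^ (-β - 1) * s := by ring
  rw [e] at h1
  exact h1

/-- substitution -/
theorem subst {f : ℝ → ℝ} (hf : Continuous f) (h00 : f 0 = 0) {β : ℝ} (hβ : 0 < β) {X Y r : ℝ}
    (hX : 0 < X) (hXY : X ≤ Y) (hr : 0 ≤ r) :
    ∫ s in X..Y, f (s * r) * s ^ (-β - 1) = r ^ β * (GG f β (Y * r) - GG f β (X * r)) := by
  rcases hr.eq_or_lt with h | h
  · rw [← h, Real.zero_rpow hβ.ne', zero_mul]
    simp [h00]
  · have hY : 0 < Y := lt_of_lt_of_le hX hXY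
    rw [GG_sub hf β (mul_pos hX h) (mul_pos hY h)]
    have h1 : ∫ s in X..Y, f (s * r) * s ^ (-β - 1) =
        ∫ s in X..Y, r ^ (β + 1) * gg f β (s * r) := by
      refine intervalIntegral.integral_congr fun s hs => ?_
      rw [Set.uIcc_of_le hXY] at hs
      have hs0 : 0 < s := lt_of_lt_of_le hX hs.1
      simp only [gg]
      rw [Real.mul_rpow hs0.le h.le]
      have : r ^ (β + 1) * r ^ (-β - 1) = 1 := by
        rw [← Real.rpow_add h]; simp
      calc f (s * r) * s ^ (-β - 1) = f (s * r) * s ^ (-β - 1) * 1 := by ring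
        _ = f (s * r) * s ^ (-β - 1) * (r ^ (β + 1) * r ^ (-β - 1)) := by rw [this]
        _ = _ := by ring
    rw [h1, intervalIntegral.integral_const_mul,
      intervalIntegral.integral_comp_mul_right (fun t => gg f β t) h.ne', smul_eq_mul, ← mul_assoc]
    congr 1
    rw [Real.rpow_add h, Real.rpow_one]
    field_simp

theorem real_core {n : ℕ} {r : Fin n → Fin n → ℝ} (hr : ∀ i j, 0 ≤ r i j) {c : Fin n → ℝ}
    {β p L s₁ θ κ₀ : ℝ} (hβ : 0 < β) (hβp : β < p) (hs₁ : 0 < s₁) (hθ : 0 < θ) (hκ₀ : 0 < κ₀)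
    (hfam : ∀ m : ℕ, 1 ≤ m → ∃ f : ℝ → ℝ, Continuous f ∧ f 0 = 0 ∧ (∀ t, 0 ≤ f t ∧ f t ≤ 2) ∧
      (∀ s, 0 ≤ s → ∑ i, ∑ j, c i * c j * f (s * r i j) ≤ 0) ∧
      (∀ t, 0 ≤ t → t ≤ 2 * (θ * (m : ℝ) ^ (-(1 / p))) → f t ≤ L / m) ∧
      (∀ s t, 0 ≤ t → t ≤ 2 * s → f t ≤ 4 * f s) ∧ κ₀ ≤ f s₁) :
    ∑ i, ∑ j, c i * c j * r i j ^ β ≤ 0 := by
  by_contra hcon
  push Not at hcon
  set Q : ℝ := ∑ i, ∑ j, c i * c j * r i j ^ β with hQ
  have hp : 0 < p := hβ.trans hβp
  -- the range of the distances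
  set Rr : ℝ := 1 + ∑ i, ∑ j, (r i j + (r i j)⁻¹) with hRr
  have hterm : ∀ i j, 0 ≤ r i j + (r i j)⁻¹ := fun i j => add_nonneg (hr i j) (inv_nonneg.2 (hr i j))
  have hR1 : 1 ≤ Rr := by
    have : 0 ≤ ∑ i, ∑ j, (r i j + (r i j)⁻¹) :=
      Finset.sum_nonneg fun i _ => Finset.sum_nonneg fun j _ => hterm i j
    linarith
  have hR0 : 0 < Rr := by linarith
  have hle : ∀ i j, r i j + (r i j)⁻¹ ≤ Rr := by
    intro i j
    have h1 : r i j + (r i j)⁻¹ ≤ ∑ j, (r i j + (r i j)⁻¹) :=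
      Finset.single_le_sum (f := fun j => r i j + (r i j)⁻¹) (fun j _ => hterm i j)
        (Finset.mem_univ j)
    have h2 : ∑ j, (r i j + (r i j)⁻¹) ≤ ∑ i, ∑ j, (r i j + (r i j)⁻¹) :=
      Finset.single_le_sum (f := fun i => ∑ j, (r i j + (r i j)⁻¹))
        (fun i _ => Finset.sum_nonneg fun j _ => hterm i j) (Finset.mem_univ i)
    linarith
  have hrR : ∀ i j, r i j ≤ Rr := fun i j => by
    have := hle i j
    have := inv_nonneg.2 (hr i j)
    linarith
  have hrR' : ∀ i j, 0 < r i j → 1 ≤ r i j * Rr := fun i j h => by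
    have h1 := hle i j
    have h2 : (r i j)⁻¹ ≤ Rr := by linarith
    calc (1 : ℝ) = r i j * (r i j)⁻¹ := (mul_inv_cancel₀ h.ne').symm
      _ ≤ r i j * Rr := mul_le_mul_of_nonneg_left h2 h.le
  set B : ℝ := ∑ i, ∑ j, |c i * c j| * r i j ^ β with hB
  have hB0 : 0 ≤ B := Finset.sum_nonneg fun i _ => Finset.sum_nonneg fun j _ =>
    mul_nonneg (abs_nonneg _) (Real.rpow_nonneg (hr i j) _)
  set c₂ : ℝ := κ₀ / 4 * (2 * s₁) ^ (-β - 1) * s₁ with hc₂
  have hc₂0 : 0 < c₂ := by positivity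
  -- choice of `Y`
  obtain ⟨Y, hY1, hY2⟩ : ∃ Y : ℝ, 2 * s₁ ≤ Y ∧
      B * (2 * (Y / Rr) ^ (-β - 1) * (Y * Rr)) ≤ Q * c₂ / 4 := by
    have h1 : Tendsto (fun Y : ℝ => B * (2 * (Rr ^ (β + 1) * Rr)) * Y ^ (-β)) atTop
        (𝓝 (B * (2 * (Rr ^ (β + 1) * Rr)) * 0)) :=
      (tendsto_rpow_neg_atTop hβ).const_mul _
    rw [mul_zero] at h1
    have h2 := (h1.eventually (ge_mem_nhds (show (0 : ℝ) < Q * c₂ / 4 by positivity))).and
      ((eventually_ge_atTop (2 * s₁)).and (eventually_gt_atTop 0))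
    obtain ⟨Y, hY1, hY2, hY3⟩ := h2.exists
    refine ⟨Y, hY2, ?_⟩
    have e : B * (2 * (Y / Rr) ^ (-β - 1) * (Y * Rr)) =
        B * (2 * (Rr ^ (β + 1) * Rr)) * Y ^ (-β) := by
      rw [Real.div_rpow hY3.le hR0.le]
      have e1 : Rr ^ (-β - 1) = (Rr ^ (β + 1))⁻¹ := by
        rw [← Real.rpow_neg hR0.le]; congr 1; ring
      have e2 : Y ^ (-β) = Y ^ (-β - 1) * Y := by
        conv_rhs => rw [← Real.rpow_one Y]
        rw [Real.rpow_one, ← Real.rpow_add_one hY3.ne']
        congr 1; ring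
      rw [e1, e2, div_inv_eq_mul]
      ring
    rw [e]
    exact hY1
  have hY0 : 0 < Y := lt_of_lt_of_le (by positivity) hY1
  -- choice of the number of doublings
  obtain ⟨K, hK⟩ := pow_unbounded_of_one_lt (Rr ^ 2) (one_lt_two (α := ℝ))
  -- choice of `m`
  obtain ⟨m, hm1, hm2, hm3⟩ : ∃ m : ℕ, 1 ≤ m ∧ (θ * (m : ℝ) ^ (-(1 / p))) * Rr ≤ s₁ ∧
      B * (4 ^ K * (L / m) * (θ * (m : ℝ) ^ (-(1 / p))) ^ (-β - 1) *
        (θ * (m : ℝ) ^ (-(1 / p)) * Rr ^ 2)) ≤ Q * c₂ / 4 := by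
    have hcast : Tendsto (fun m : ℕ => (m : ℝ)) atTop atTop := tendsto_natCast_atTop_atTop
    have h1 : Tendsto (fun m : ℕ => B * (4 ^ K * L * Rr ^ 2 * θ ^ (-β)) *
        (m : ℝ) ^ (-(1 - β / p))) atTop (𝓝 (B * (4 ^ K * L * Rr ^ 2 * θ ^ (-β)) * 0)) := by
      refine ((tendsto_rpow_neg_atTop ?_).comp hcast).const_mul _
      have : β / p < 1 := (div_lt_one hp).2 hβp
      linarith
    have h2 : Tendsto (fun m : ℕ => θ * (m : ℝ) ^ (-(1 / p)) * Rr) atTop (𝓝 (θ * 0 * Rr)) :=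
      (((tendsto_rpow_neg_atTop (by positivity)).comp hcast).const_mul _).mul_const _
    rw [mul_zero] at h1
    rw [mul_zero, zero_mul] at h2
    have h3 := (h1.eventually (ge_mem_nhds (show (0 : ℝ) < Q * c₂ / 4 by positivity))).and
      ((h2.eventually (ge_mem_nhds hs₁)).and (eventually_ge_atTop 1))
    obtain ⟨m, hm1, hm2, hm3⟩ := h3.exists
    refine ⟨m, hm3, hm2, ?_⟩
    have hmR : (0 : ℝ) < m := by exact_mod_cast hm3
    have e : B * (4 ^ K * (L / m) * (θ * (m : ℝ) ^ (-(1 / p))) ^ (-β - 1) *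
        (θ * (m : ℝ) ^ (-(1 / p)) * Rr ^ 2)) =
        B * (4 ^ K * L * Rr ^ 2 * θ ^ (-β)) * (m : ℝ) ^ (-(1 - β / p)) := by
      rw [Real.mul_rpow hθ.le (by positivity), ← Real.rpow_mul hmR.le]
      have e1 : (m : ℝ) ^ (-(1 - β / p)) =
          (m : ℝ)⁻¹ * ((m : ℝ) ^ (-(1 / p) * (-β - 1)) * (m : ℝ) ^ (-(1 / p))) := by
        rw [← Real.rpow_add hmR, ← Real.rpow_neg_one, ← Real.rpow_add hmR]
        congr 1
        field_simp
        ring
      have e2 : θ ^ (-β) = θ ^ (-β - 1) * θ := by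
        rw [← Real.rpow_add_one hθ.ne']
        congr 1; ring
      rw [e1, e2, div_eq_mul_inv]
      ring
    rw [e]
    exact hm1
  obtain ⟨f, hf, hf0, hf2, hneg, hsmall, hdoub, hbig⟩ := hfam m hm1
  have hmR : (0 : ℝ) < m := by exact_mod_cast hm1
  set δ : ℝ := θ * (m : ℝ) ^ (-(1 / p)) with hδ
  have hδ0 : 0 < δ := mul_pos hθ (Real.rpow_pos_of_pos hmR _)
  have hfn : ∀ t, 0 ≤ f t := fun t => (hf2 t).1
  set G := GG f β with hG
  set X : ℝ := δ * Rr with hX
  have hX0 : 0 < X := by positivity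
  have hXY : X ≤ Y := by linarith
  -- iterated doubling
  have hiter : ∀ k : ℕ, ∀ t, 0 ≤ t → t ≤ 2 ^ k * (2 * δ) → f t ≤ 4 ^ k * (L / m) := by
    intro k
    induction k with
    | zero => intro t ht0 ht; rw [pow_zero, one_mul] at ht ⊢; exact hsmall t ht0 ht
    | succ k ih =>
      intro t ht0 ht
      have h1 := ih (t / 2) (by positivity) (by rw [pow_succ] at ht; linarith)
      have h2 := hdoub (t / 2) t ht0 (by linarith)
      rw [pow_succ]
      linarith
  -- the window at `X`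
  have hdX : G (X * Rr) - G (X / Rr) ≤ 4 ^ K * (L / m) * δ ^ (-β - 1) * (δ * Rr ^ 2) := by
    have e1 : X / Rr = δ := by rw [hX]; field_simp
    have e2 : X * Rr = δ * Rr ^ 2 := by rw [hX]; ring
    rw [e1, e2]
    refine GG_upper hf hfn hβ hδ0 ?_ fun t ht0 ht => ?_
    · have : 1 ≤ Rr ^ 2 := one_le_pow₀ hR1
      nlinarith
    · refine hiter K t ht0 (ht.trans ?_)
      nlinarith
  -- the window at `Y`
  have hdY : G (Y * Rr) - G (Y / Rr) ≤ 2 * (Y / Rr) ^ (-β - 1) * (Y * Rr) := by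
    refine GG_upper hf hfn hβ (by positivity) ?_ fun t ht0 ht => (hf2 t).2
    rw [div_le_iff₀ hR0]
    have : 1 ≤ Rr * Rr := by nlinarith
    nlinarith
  -- the main window
  have hmain : c₂ ≤ G Y - G X := by
    have h1 := GG_lower hf hfn hβ hs₁ (M := κ₀ / 4) (by positivity) (fun t ht => by
      have := hdoub t s₁ hs₁.le (by linarith)
      linarith)
    have h2 : G X ≤ G s₁ := GG_mono hf hfn β hX0 hm2
    have h3 : G (2 * s₁) ≤ G Y := GG_mono hf hfn β (by positivity) hY1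
    linarith
  -- the negative type inequality, integrated
  have hint : ∑ i, ∑ j, c i * c j * (r i j ^ β * (G (Y * r i j) - G (X * r i j))) ≤ 0 := by
    have hii : ∀ i j, IntervalIntegrable (fun s : ℝ => c i * c j * (f (s * r i j) * s ^ (-β - 1)))
        volume X Y := by
      intro i j
      refine (ContinuousOn.intervalIntegrable ?_)
      rw [Set.uIcc_of_le hXY]
      refine ContinuousOn.mul continuousOn_const (ContinuousOn.mul ?_ ?_)
      · exact (hf.comp (continuous_id.mul continuous_const)).continuousOn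
      · intro s hs
        exact (Real.continuousAt_rpow_const s _
          (Or.inl (ne_of_gt (lt_of_lt_of_le hX0 hs.1)))).continuousWithinAt
    have h1 : ∑ i, ∑ j, c i * c j * (r i j ^ β * (G (Y * r i j) - G (X * r i j))) =
        ∫ s in X..Y, ∑ i, ∑ j, c i * c j * (f (s * r i j) * s ^ (-β - 1)) := by
      rw [intervalIntegral.integral_finset_sum]
      · refine Finset.sum_congr rfl fun i _ => ?_
        rw [intervalIntegral.integral_finset_sum]
        · refine Finset.sum_congr rfl fun j _ => ?_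
          rw [intervalIntegral.integral_const_mul, subst hf hf0 hβ hX0 hXY (hr i j)]
        · intro j _
          exact hii i j
      · intro i _
        have := IntervalIntegrable.sum (Finset.univ : Finset (Fin n))
          (f := fun j => fun s : ℝ => c i * c j * (f (s * r i j) * s ^ (-β - 1)))
          (fun j _ => hii i j)
        refine this.congr ?_
        intro s _
        simp
    rw [h1, ← neg_nonneg, ← intervalIntegral.integral_neg]
    refine intervalIntegral.integral_nonneg hXY fun s hs => ?_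
    have hs0 : 0 < s := lt_of_lt_of_le hX0 hs.1
    have h2 := hneg s hs0.le
    have e : ∑ i, ∑ j, c i * c j * (f (s * r i j) * s ^ (-β - 1)) =
        (∑ i, ∑ j, c i * c j * f (s * r i j)) * s ^ (-β - 1) := by
      rw [Finset.sum_mul]
      refine Finset.sum_congr rfl fun i _ => ?_
      rw [Finset.sum_mul]
      refine Finset.sum_congr rfl fun j _ => ?_
      ring
    rw [e, neg_nonneg]
    exact mul_nonpos_of_nonpos_of_nonneg h2 (Real.rpow_nonneg hs0.le _)
  -- compare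
  set W : ℝ := (G (Y * Rr) - G (Y / Rr)) + (G (X * Rr) - G (X / Rr)) with hW
  have hcmp : ∀ i j, c i * c j * r i j ^ β * (G Y - G X) - |c i * c j| * r i j ^ β * W ≤
      c i * c j * (r i j ^ β * (G (Y * r i j) - G (X * r i j))) := by
    intro i j
    rcases (hr i j).eq_or_lt with h | h
    · rw [← h, Real.zero_rpow hβ.ne']; simp
    · have h1 := hrR i j
      have h2 := hrR' i j h
      have hwin : ∀ Z : ℝ, 0 < Z → |G (Z * r i j) - G Z| ≤ G (Z * Rr) - G (Z / Rr) := by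
        intro Z hZ
        have a1 : G (Z / Rr) ≤ G (Z * r i j) := by
          refine GG_mono hf hfn β (by positivity) ?_
          rw [div_le_iff₀ hR0]
          nlinarith
        have a2 : G (Z * r i j) ≤ G (Z * Rr) :=
          GG_mono hf hfn β (by positivity) (mul_le_mul_of_nonneg_left h1 hZ.le)
        have a3 : G (Z / Rr) ≤ G Z := GG_mono hf hfn β (by positivity) (div_le_self hZ.le hR1)
        have a4 : G Z ≤ G (Z * Rr) := GG_mono hf hfn β hZ (by nlinarith)
        rw [abs_le]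
        constructor <;> linarith
      have hx := hwin X hX0
      have hy := hwin Y hY0
      have h3 : |(G (Y * r i j) - G (X * r i j)) - (G Y - G X)| ≤ W := by
        have e : (G (Y * r i j) - G (X * r i j)) - (G Y - G X) =
            (G (Y * r i j) - G Y) - (G (X * r i j) - G X) := by ring
        rw [e]
        exact (abs_sub _ _).trans (add_le_add hy hx)
      have hrb : 0 ≤ r i j ^ β := Real.rpow_nonneg (hr i j) _
      have h4 : |c i * c j * (r i j ^ β * ((G (Y * r i j) - G (X * r i j)) - (G Y - G X)))| ≤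
          |c i * c j| * r i j ^ β * W := by
        rw [abs_mul, abs_mul (r i j ^ β), abs_of_nonneg hrb, ← mul_assoc]
        exact mul_le_mul_of_nonneg_left h3 (mul_nonneg (abs_nonneg _) hrb)
      have h5 := (abs_le.1 h4).1
      have e : c i * c j * (r i j ^ β * ((G (Y * r i j) - G (X * r i j)) - (G Y - G X))) =
          c i * c j * (r i j ^ β * (G (Y * r i j) - G (X * r i j))) -
          c i * c j * r i j ^ β * (G Y - G X) := by ring
      rw [e] at h5
      linarith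
  have hsum := Finset.sum_le_sum fun i (_ : i ∈ Finset.univ) =>
    Finset.sum_le_sum fun j (_ : j ∈ Finset.univ) => hcmp i j
  simp only [Finset.sum_sub_distrib, ← Finset.sum_mul] at hsum
  have h1 : Q * (G Y - G X) - B * W ≤ 0 := by
    rw [hQ, hB]
    linarith [hsum, hint]
  have h2 : Q * c₂ ≤ Q * (G Y - G X) := mul_le_mul_of_nonneg_left hmain hcon.le
  have h3 : B * W ≤ Q * c₂ / 4 + Q * c₂ / 4 := by
    rw [hW, mul_add]
    exact add_le_add ((mul_le_mul_of_nonneg_left hdY hB0).trans hY2)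
      ((mul_le_mul_of_nonneg_left hdX hB0).trans hm3)
  have h4 : 0 < Q * c₂ := mul_pos hcon hc₂0
  linarith

end Pool.Agent.U590.RT
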