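import Pool.Agent.U590.RT.Key
import Pool.Agent.U590.RT.Core

/-!
# Negative type from Rademacher type; subspaces of `L_q`; the parallelogram law
-/

set_option autoImplicit false
set_option linter.unusedSectionVars false
set_option linter.unusedVariables false
set_option linter.deprecated false

open scoped InnerProductSpace ENNReal
open Filter Topology MeasureTheory

noncomputable section

namespace Pool.Agent.U590.RT

section

variable {E : Type} [NormedAddCommGroup E] [NormedSpace ℝ E]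

theorem rank_gt (hE : ¬ FiniteDimensional ℝ E) : 1 < Module.rank ℝ E := by
  by_contra h
  apply hE
  have h1 : Module.rank ℝ E < Cardinal.aleph0 :=
    lt_of_le_of_lt (not_lt.1 h) Cardinal.one_lt_aleph0
  exact Module.rank_lt_aleph0_iff.1 h1

/-- There is a non-constant function `φ`, continuous at `0` from the right, for which the kernel
`φ ‖x - y‖` is positive definite. -/
def HasRadialPD (E : Type) [NormedAddCommGroup E] : Prop :=
  ∃ φ : ℝ → ℝ, RadialPD E φ ∧ Tendsto φ (𝓝[>] 0) (𝓝 (φ 0)) ∧ ∃ s : ℝ, 0 < s ∧ φ s ≠ φ 0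

theorem exists_unit (hr : 1 < Module.rank ℝ E) : ∃ e : E, ‖e‖ = 1 := by
  obtain ⟨e₀, he₀⟩ : ∃ e₀ : E, e₀ ≠ 0 := by
    by_contra hcon
    push Not at hcon
    have : Subsingleton E := ⟨fun a b => by rw [hcon a, hcon b]⟩
    rw [rank_subsingleton'] at hr
    exact absurd hr (not_lt.2 zero_le_one)
  exact ⟨‖e₀‖⁻¹ • e₀, by
      rw [norm_smul, norm_inv, norm_norm, inv_mul_cancel₀ (norm_ne_zero_iff.2 he₀)]⟩

theorem normalise (hr : 1 < Module.rank ℝ E) (h : HasRadialPD E) :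
    ∃ (φ : ℝ → ℝ) (s : ℝ), RadialPD E φ ∧ Nice φ ∧ 0 < s ∧ φ s < 1 := by
  obtain ⟨φ, h1, h2, s, hs, hne⟩ := h
  obtain ⟨e, he⟩ := exists_unit hr
  have hse : ‖s • e‖ = s := by rw [norm_smul, he, mul_one, Real.norm_of_nonneg hs.le]
  have p1 := h1.fintype (κ := Bool) (fun b => if b then s • e else 0) (fun b => 1)
  have p2 := h1.fintype (κ := Bool) (fun b => if b then s • e else 0) (fun b => if b then 1 else -1)
  simp only [Fintype.sum_bool, if_true, Bool.false_eq_true, if_false, sub_self, norm_zero,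
    sub_zero, zero_sub, norm_neg, hse] at p1 p2
  have h0 : 0 < φ 0 := by
    by_contra hcon
    apply hne
    linarith
  refine ⟨fun t => φ t / φ 0, s, ?_, ⟨div_self h0.ne', ?_⟩, hs, ?_⟩
  · intro n x c
    have e1 : ∑ i, ∑ j, c i * c j * (φ ‖x i - x j‖ / φ 0) =
        (∑ i, ∑ j, c i * c j * φ ‖x i - x j‖) / φ 0 := by
      rw [Finset.sum_div]
      refine Finset.sum_congr rfl fun i _ => ?_
      rw [Finset.sum_div]
      refine Finset.sum_congr rfl fun j _ => ?_
      ring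
    rw [e1]
    exact div_nonneg (h1 n x c) h0.le
  · intro ε hε
    have h3 : Tendsto (fun t => 1 - φ t / φ 0) (𝓝[>] 0) (𝓝 (1 - φ 0 / φ 0)) :=
      (h2.div_const _).const_sub 1
    rw [div_self h0.ne', sub_self] at h3
    have h4 := h3.eventually (gt_mem_nhds hε)
    rw [eventually_nhdsWithin_iff, Metric.eventually_nhds_iff] at h4
    obtain ⟨δ, hδ, h5⟩ := h4
    refine ⟨δ, hδ, fun t ht0 ht => ?_⟩
    rcases ht0.eq_or_lt with h | h
    · rw [← h]
      show 1 - φ 0 / φ 0 < ε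
      rw [div_self h0.ne', sub_self]; exact hε
    · exact h5 (by rw [Real.dist_eq, sub_zero, abs_of_pos h]; exact ht) h
  · have h3 : φ s < φ 0 := lt_of_le_of_ne (by linarith) hne
    exact (div_lt_one h0).2 h3

theorem neg_of_type (hPD : HasRadialPD E) (hE : AlmostTransitive E)
    (hr : 1 < Module.rank ℝ E) {p β : ℝ} (hβ : 0 < β) (hβp : β < p) (hT : HasType E p) :
    NegType E β := by
  intro n x c hc
  obtain ⟨φ, s₁, h1, h2, hs₁, h4⟩ := normalise hr hPD
  obtain ⟨L, θ, κ₀, hθ, hκ₀, hfam⟩ := key h1 h2 hs₁ h4 hE hr (hβ.trans hβp) hT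
  refine real_core (r := fun i j => ‖x i - x j‖) (fun i j => norm_nonneg _) hβ hβp hs₁ hθ hκ₀
    (L := L) fun m hm => ?_
  obtain ⟨f, h1, h2, h3, h4, h5, h6, h7⟩ := hfam m hm
  exact ⟨f, h1, h2, h3, fun s hs => h4 n x c s hs hc, h5, h6, h7⟩

theorem neg_limit {p : ℝ} (hp : 0 < p) (h : ∀ β, 0 < β → β < p → NegType E β) : NegType E p := by
  intro n x c hc
  have h1 : Tendsto (fun β : ℝ => ∑ i, ∑ j, c i * c j * ‖x i - x j‖ ^ β) (𝓝[<] p)
      (𝓝 (∑ i, ∑ j, c i * c j * ‖x i - x j‖ ^ p)) := by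
    refine tendsto_finsetSum _ fun i _ => tendsto_finsetSum _ fun j _ => ?_
    refine Tendsto.const_mul _ ?_
    exact ((Real.continuousAt_const_rpow' (a := ‖x i - x j‖) hp.ne').tendsto).mono_left
      nhdsWithin_le_nhds
  refine le_of_tendsto h1 ?_
  have h2 : ∀ᶠ β : ℝ in 𝓝[<] p, 0 < β := by
    filter_upwards [nhdsWithin_le_nhds (lt_mem_nhds hp)] with β hβ using hβ
  filter_upwards [h2, self_mem_nhdsWithin] with β h3 h4
  exact h β h3 h4 n x c hc

theorem type_one : HasType E 1 := by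
  refine ⟨1, fun n x => ?_⟩
  simp only [Real.rpow_one, div_one, one_mul]
  rw [div_le_iff₀ (by positivity)]
  calc ∑ ε : Fin n → Bool, ‖∑ i, (if ε i then x i else -x i)‖
      ≤ ∑ ε : Fin n → Bool, ∑ i, ‖x i‖ := by
        refine Finset.sum_le_sum fun ε _ => (norm_sum_le _ _).trans ?_
        refine Finset.sum_le_sum fun i _ => ?_
        split_ifs
        · exact le_rfl
        · rw [norm_neg]
    _ = (∑ i, ‖x i‖) * 2 ^ n := by
        rw [Finset.sum_const, Finset.card_univ, Fintype.card_fun, Fintype.card_bool,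
          Fintype.card_fin, nsmul_eq_mul]
        push_cast
        ring

theorem negType_of_type (hPD : HasRadialPD E) (hE : AlmostTransitive E)
    (hr : 1 < Module.rank ℝ E) {p : ℝ} (hp : 0 < p) (hT : ∀ r, 0 < r → r < p → HasType E r) :
    NegType E p :=
  neg_limit hp fun β h0 h1 =>
    neg_of_type hPD hE hr h0 (β := β) (p := (β + p) / 2) (by linarith)
      (hT _ (by linarith) (by linarith))

theorem negType_one (hPD : HasRadialPD E) (hE : AlmostTransitive E)
    (hr : 1 < Module.rank ℝ E) : NegType E 1 :=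
  neg_limit one_pos fun β h0 h1 => neg_of_type hPD hE hr h0 h1 type_one

theorem hasPD_of_neg {q : ℝ} (hq : 0 < q) (h : NegType E q) : HasRadialPD E := by
  refine ⟨fun t => Real.exp (-|t| ^ q), fun n x c => ?_, ?_, 1, one_pos, ?_⟩
  · have := h.exp_psd hq x c
    simpa only [abs_norm] using this
  · have h1 : Continuous (fun t : ℝ => Real.exp (-|t| ^ q)) := by
      have : Continuous (fun t : ℝ => |t| ^ q) :=
        continuous_abs.rpow_const (fun _ => Or.inr hq.le)
      fun_prop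
    exact (h1.tendsto 0).mono_left nhdsWithin_le_nhds
  · beta_reduce
    rw [abs_one, abs_zero, Real.one_rpow, Real.zero_rpow hq.ne', neg_zero, Real.exp_zero]
    intro h1
    have : Real.exp (-1) < 1 := by rw [Real.exp_lt_one_iff]; norm_num
    linarith

/-! ### The parallelogram law -/

theorem paral_le (h : NegType E 2) (x y : E) :
    ‖x + y‖ ^ 2 + ‖x - y‖ ^ 2 ≤ 2 * ‖x‖ ^ 2 + 2 * ‖y‖ ^ 2 := by
  have h1 := h 4 ![0, x, y, x + y] ![1, -1, -1, 1] (by simp [Fin.sum_univ_succ])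
  rw [Fin.sum_univ_four] at h1
  simp only [Fin.sum_univ_four, Real.rpow_two] at h1
  have d0 : (![0, x, y, x + y] : Fin 4 → E) 0 = 0 := rfl
  have d1 : (![0, x, y, x + y] : Fin 4 → E) 1 = x := rfl
  have d2 : (![0, x, y, x + y] : Fin 4 → E) 2 = y := rfl
  have d3 : (![0, x, y, x + y] : Fin 4 → E) 3 = x + y := rfl
  have c0 : (![1, -1, -1, 1] : Fin 4 → ℝ) 0 = 1 := rfl
  have c1 : (![1, -1, -1, 1] : Fin 4 → ℝ) 1 = -1 := rfl
  have c2 : (![1, -1, -1, 1] : Fin 4 → ℝ) 2 = -1 := rfl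
  have c3 : (![1, -1, -1, 1] : Fin 4 → ℝ) 3 = 1 := rfl
  rw [d0, d1, d2, d3, c0, c1, c2, c3] at h1
  have e1 : ‖x - (x + y)‖ = ‖y‖ := by rw [← norm_neg]; congr 1; abel
  have e2 : ‖y - (x + y)‖ = ‖x‖ := by rw [← norm_neg]; congr 1; abel
  have e3 : ‖x + y - x‖ = ‖y‖ := by congr 1; abel
  have e4 : ‖x + y - y‖ = ‖x‖ := by congr 1; abel
  have e5 : ‖y - x‖ = ‖x - y‖ := norm_sub_rev _ _
  simp only [e1, e2, e3, e4, e5, sub_self, zero_sub, sub_zero, norm_neg, norm_zero] at h1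
  linarith

theorem paral (h : NegType E 2) (x y : E) :
    ‖x + y‖ * ‖x + y‖ + ‖x - y‖ * ‖x - y‖ = 2 * (‖x‖ * ‖x‖ + ‖y‖ * ‖y‖) := by
  have h1 := paral_le h x y
  have h2 := paral_le h (x + y) (x - y)
  have e1 : x + y + (x - y) = (2 : ℝ) • x := by rw [two_smul]; abel
  have e2 : x + y - (x - y) = (2 : ℝ) • y := by rw [two_smul]; abel
  rw [e1, e2, norm_smul, norm_smul, Real.norm_eq_abs, abs_two] at h2
  nlinarith

theorem hilbert [CompleteSpace E] (h : NegType E 2) :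
    ∃ (F : Type) (_ : NormedAddCommGroup F) (_ : InnerProductSpace ℝ F)
      (_ : CompleteSpace F), Nonempty (E ≃ₗᵢ[ℝ] F) :=
  ⟨E, inferInstance, InnerProductSpace.ofNorm ℝ (paral h), inferInstance,
    ⟨LinearIsometryEquiv.refl ℝ E⟩⟩

end

/-! ### Subspaces of `L_q` -/

theorem neg_real_two : NegType ℝ 2 := by
  intro n x c hc
  have e : ∑ i, ∑ j, c i * c j * ‖x i - x j‖ ^ (2 : ℝ) =
      (∑ i, c i * x i ^ 2) * (∑ j, c j) + (∑ i, c i) * (∑ j, c j * x j ^ 2) -
        2 * ((∑ i, c i * x i) * (∑ j, c j * x j)) := by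
    rw [Finset.sum_mul_sum, Finset.sum_mul_sum, Finset.sum_mul_sum, Finset.mul_sum,
      ← Finset.sum_add_distrib, ← Finset.sum_sub_distrib]
    refine Finset.sum_congr rfl fun i _ => ?_
    rw [Finset.mul_sum, ← Finset.sum_add_distrib, ← Finset.sum_sub_distrib]
    refine Finset.sum_congr rfl fun j _ => ?_
    rw [Real.rpow_two, Real.norm_eq_abs, sq_abs]
    ring
  rw [e, hc]
  nlinarith [mul_self_nonneg (∑ i, c i * x i)]

theorem neg_lower {E : Type} [NormedAddCommGroup E] {q β : ℝ} (hβ : 0 < β) (hβq : β < q)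
    (hq2 : q ≤ 2) (h : NegType E q) : NegType E β := by
  intro n x c hc
  have hq : 0 < q := hβ.trans hβq
  refine real_core (r := fun i j => ‖x i - x j‖) (fun i j => norm_nonneg _) hβ hβq one_pos
    one_pos (show (0 : ℝ) < 1 / 2 by norm_num) (L := 4) fun m hm => ?_
  have hmR : (0 : ℝ) < m := by exact_mod_cast hm
  refine ⟨fun t => 1 - Real.exp (-|t| ^ q), ?_, ?_, ?_, ?_, ?_, ?_, ?_⟩
  · have : Continuous (fun t : ℝ => |t| ^ q) := continuous_abs.rpow_const (fun _ => Or.inr hq.le)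
    fun_prop
  · simp [Real.zero_rpow hq.ne']
  · intro t
    have h1 : Real.exp (-|t| ^ q) ≤ 1 := by
      rw [Real.exp_le_one_iff, neg_nonpos]; positivity
    have h2 := Real.exp_pos (-|t| ^ q)
    constructor <;> linarith
  · intro s hs
    have h1 := h.exp_psd' hq (κ := Fin n) (fun i => x i) c (t := s ^ q) (by positivity)
    have e : ∑ i, ∑ j, c i * c j * (1 - Real.exp (-|s * ‖x i - x j‖| ^ q)) =
        (∑ i, c i) * (∑ j, c j) - ∑ i, ∑ j, c i * c j * Real.exp (-(s ^ q * ‖x i - x j‖ ^ q)) := by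
      rw [Finset.sum_mul_sum, ← Finset.sum_sub_distrib]
      refine Finset.sum_congr rfl fun i _ => ?_
      rw [← Finset.sum_sub_distrib]
      refine Finset.sum_congr rfl fun j _ => ?_
      rw [abs_of_nonneg (by positivity), Real.mul_rpow hs (norm_nonneg _)]
      ring
    rw [e, hc]
    linarith
  · intro t ht0 ht
    rw [one_mul] at ht
    have h1 := Real.add_one_le_exp (-|t| ^ q)
    beta_reduce
    rw [abs_of_nonneg ht0] at h1 ⊢
    have h2 : t ^ q ≤ (2 * (m : ℝ) ^ (-(1 / q))) ^ q := Real.rpow_le_rpow ht0 ht hq.le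
    rw [Real.mul_rpow (by norm_num) (by positivity), ← Real.rpow_mul hmR.le] at h2
    have e : -(1 / q) * q = -1 := by field_simp
    rw [e, Real.rpow_neg_one] at h2
    have h3 : (2 : ℝ) ^ q ≤ 4 := by
      calc (2 : ℝ) ^ q ≤ 2 ^ (2 : ℝ) := Real.rpow_le_rpow_of_exponent_le (by norm_num) hq2
        _ = 4 := by norm_num
    have h4 : (2 : ℝ) ^ q * (m : ℝ)⁻¹ ≤ 4 * (m : ℝ)⁻¹ :=
      mul_le_mul_of_nonneg_right h3 (by positivity)
    rw [div_eq_mul_inv]
    linarith
  · intro s t ht0 hts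
    have hs : 0 ≤ s := by linarith
    beta_reduce
    rw [abs_of_nonneg ht0, abs_of_nonneg hs]
    have h1 : t ^ q ≤ 4 * s ^ q := by
      calc t ^ q ≤ (2 * s) ^ q := Real.rpow_le_rpow ht0 hts hq.le
        _ = 2 ^ q * s ^ q := Real.mul_rpow (by norm_num) hs
        _ ≤ 2 ^ (2 : ℝ) * s ^ q := mul_le_mul_of_nonneg_right
            (Real.rpow_le_rpow_of_exponent_le (by norm_num) hq2) (by positivity)
        _ = 4 * s ^ q := by norm_num
    set y := Real.exp (-s ^ q) with hy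
    have hy0 : 0 < y := Real.exp_pos _
    have hy1 : y ≤ 1 := by rw [hy, Real.exp_le_one_iff, neg_nonpos]; positivity
    have h2 : y ^ 4 ≤ Real.exp (-t ^ q) := by
      rw [hy, ← Real.exp_nat_mul, Real.exp_le_exp]
      push_cast
      linarith
    have h3 : 1 - y ^ 4 ≤ 4 * (1 - y) := by
      have e : 1 - y ^ 4 = (1 - y) * (1 + y + y ^ 2 + y ^ 3) := by ring
      rw [e, mul_comm]
      refine mul_le_mul_of_nonneg_right ?_ (by linarith)
      have a2 : y ^ 2 ≤ 1 := pow_le_one₀ hy0.le hy1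
      have a3 : y ^ 3 ≤ 1 := pow_le_one₀ hy0.le hy1
      linarith
    linarith
  · beta_reduce
    rw [abs_one, Real.one_rpow, Real.exp_neg]
    have h1 := Real.exp_one_gt_d9
    have h2 : (Real.exp 1)⁻¹ ≤ 2⁻¹ := inv_anti₀ (by norm_num) (by linarith)
    linarith

theorem neg_real {q : ℝ} (hq : 0 < q) (hq2 : q ≤ 2) : NegType ℝ q := by
  rcases hq2.eq_or_lt with h | h
  · rw [h]; exact neg_real_two
  · exact neg_lower hq h le_rfl neg_real_two

/-- isometric subspaces of `L_q`, `0 < q ≤ 2` -/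
theorem neg_Lq {E : Type} [NormedAddCommGroup E] [NormedSpace ℝ E] {Ω : Type} [MeasurableSpace Ω]
    {μ : Measure Ω} {q : ℝ≥0∞} (hq0 : q ≠ 0) (hq2 : q ≤ 2) (J : E →ₗ[ℝ] Lp ℝ q μ)
    (hJ : ∀ u, ‖J u‖ = ‖u‖) : 0 < q.toReal ∧ NegType E q.toReal := by
  have hqt : q ≠ ∞ := ne_top_of_le_ne_top (by norm_num) hq2
  have hq : 0 < q.toReal := ENNReal.toReal_pos hq0 hqt
  have hq2' : q.toReal ≤ 2 := by
    have := ENNReal.toReal_mono (by norm_num) hq2
    simpa using this
  refine ⟨hq, fun n x c hc => ?_⟩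
  have hint : ∀ u : E, Integrable (fun ω => ‖(J u : Ω → ℝ) ω‖ ^ q.toReal) μ := fun u =>
    (Lp.memLp (J u)).integrable_norm_rpow hq0 hqt
  have hnorm : ∀ u : E, ‖u‖ ^ q.toReal = ∫ ω, ‖(J u : Ω → ℝ) ω‖ ^ q.toReal ∂μ := by
    intro u
    rw [← hJ u, Lp.norm_def, (Lp.memLp (J u)).eLpNorm_eq_integral_rpow_norm hq0 hqt,
      ENNReal.toReal_ofReal (by positivity), ← Real.rpow_mul (by positivity),
      inv_mul_cancel₀ hq.ne', Real.rpow_one]
  have hsub : ∀ i j, ‖x i - x j‖ ^ q.toReal =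
      ∫ ω, ‖(J (x i) : Ω → ℝ) ω - (J (x j) : Ω → ℝ) ω‖ ^ q.toReal ∂μ := by
    intro i j
    rw [hnorm]
    refine integral_congr_ae ?_
    rw [map_sub]
    filter_upwards [Lp.coeFn_sub (J (x i)) (J (x j))] with ω hω
    rw [hω, Pi.sub_apply]
  have hint' : ∀ i j, Integrable
      (fun ω => ‖(J (x i) : Ω → ℝ) ω - (J (x j) : Ω → ℝ) ω‖ ^ q.toReal) μ := by
    intro i j
    refine (hint (x i - x j)).congr ?_
    rw [map_sub]
    filter_upwards [Lp.coeFn_sub (J (x i)) (J (x j))] with ω hω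
    rw [hω, Pi.sub_apply]
  have e : ∑ i, ∑ j, c i * c j * ‖x i - x j‖ ^ q.toReal =
      ∫ ω, ∑ i, ∑ j, c i * c j * ‖(J (x i) : Ω → ℝ) ω - (J (x j) : Ω → ℝ) ω‖ ^ q.toReal ∂μ := by
    rw [integral_finset_sum _ fun i _ => integrable_finset_sum _ fun j _ =>
      (hint' i j).const_mul _]
    refine Finset.sum_congr rfl fun i _ => ?_
    rw [integral_finset_sum _ fun j _ => (hint' i j).const_mul _]
    refine Finset.sum_congr rfl fun j _ => ?_
    rw [integral_const_mul, hsub]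
  rw [e]
  exact integral_nonpos fun ω => neg_real hq hq2' n (fun i => (J (x i) : Ω → ℝ) ω) c hc

end Pool.Agent.U590.RT
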