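import Mathlib

/-!
# The Hilbert space of an invariant positive semidefinite kernel (real case)
-/

set_option autoImplicit false
set_option linter.unusedSectionVars false
set_option linter.unusedSimpArgs false

open scoped InnerProductSpace
open Filter Topology

noncomputable section

namespace Pool.Agent.U590.RT

section Kernel

variable {X : Type} (K : Matrix X X ℝ)

/-- the pre-Hilbert space of finitely supported functions -/
abbrev Pre (_ : Matrix X X ℝ) : Type := X →₀ ℝ

variable [hK : Fact K.PosSemidef]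

instance instCore : PreInnerProductSpace.Core ℝ (Pre K) where
  inner f g := Finsupp.sum (M := ℝ) f fun x a => Finsupp.sum (M := ℝ) g fun y b =>
    a * K x y * b
  conj_inner_symm f g := by
    change (Finsupp.sum (M := ℝ) g fun x a => Finsupp.sum (M := ℝ) f fun y b =>
      a * K x y * b) = _
    rw [Finsupp.sum_comm]
    unfold Finsupp.sum
    refine Finset.sum_congr rfl fun x _ => Finset.sum_congr rfl fun y _ => ?_
    change (g y) * K y x * f x = (f x) * K x y * g y
    have h := (Fact.out : K.PosSemidef).1.apply x y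
    simp only [star_trivial] at h
    rw [h]
    ring
  add_left f g h := by
    change Finsupp.sum (M := ℝ) (f + g : X →₀ ℝ) _ = _
    rw [Finsupp.sum_add_index']
    · intro x; simp
    · intro x a b; simp [← Finsupp.sum_add, add_mul]
  smul_left f g r := by
    change Finsupp.sum (M := ℝ) (r • f : X →₀ ℝ) _ = _
    rw [Finsupp.sum_smul_index]
    · change _ = r * (Finsupp.sum (M := ℝ) f _)
      simp [Finsupp.mul_sum, mul_assoc]
    · intro x; simp
  re_inner_nonneg f := by
    have := (Fact.out : K.PosSemidef).2 f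
    exact this

instance instSN : SeminormedAddCommGroup (Pre K) :=
  InnerProductSpace.Core.toSeminormedAddCommGroup (𝕜 := ℝ)

instance instIP : InnerProductSpace ℝ (Pre K) := .ofCore _

lemma inner_def (f g : Pre K) : ⟪f, g⟫_ℝ =
    Finsupp.sum (M := ℝ) f fun x a => Finsupp.sum (M := ℝ) g fun y b => a * K x y * b := rfl

/-- basis vector -/
def bv (x : X) : Pre K := Finsupp.single x (1 : ℝ)

lemma inner_bv (x y : X) : ⟪bv K x, bv K y⟫_ℝ = K x y := by
  rw [inner_def]
  simp [bv]

end Kernel

section Action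

variable {G : Type} [Group G] {X : Type} [MulAction G X] (K : Matrix X X ℝ)
  [hK : Fact K.PosSemidef]

/-- the translation on the pre-Hilbert space -/
def trans0 (g : G) : Pre K →ₗ[ℝ] Pre K := Finsupp.lmapDomain ℝ ℝ (fun x => g • x)

lemma trans0_bv (g : G) (x : X) : trans0 K g (bv K x) = bv K (g • x) := by
  simp [trans0, bv, Finsupp.lmapDomain, Finsupp.mapDomain_single]

lemma trans0_mul (g h : G) (f : Pre K) : trans0 K (g * h) f = trans0 K g (trans0 K h f) := by
  change Finsupp.mapDomain _ (f : X →₀ ℝ) =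
    Finsupp.mapDomain _ (Finsupp.mapDomain _ (f : X →₀ ℝ))
  rw [← Finsupp.mapDomain_comp]
  congr 1
  funext x
  simp [mul_smul]

lemma trans0_one (f : Pre K) : trans0 K (1 : G) f = f := by
  change Finsupp.mapDomain (fun x : X => (1 : G) • x) (f : X →₀ ℝ) = f
  have : (fun x : X => (1 : G) • x) = id := by funext x; simp
  rw [this, Finsupp.mapDomain_id]

lemma inner_trans0 (hinv : ∀ (g : G) (x y : X), K (g • x) (g • y) = K x y) (g : G)
    (f f' : Pre K) : ⟪trans0 K g f, trans0 K g f'⟫_ℝ = ⟪f, f'⟫_ℝ := by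
  rw [inner_def, inner_def]
  have e1 := Finsupp.sum_mapDomain_index (f := fun x : X => g • x) (s := (f : X →₀ ℝ))
    (h := fun x a => Finsupp.sum (M := ℝ) (Finsupp.mapDomain (fun x : X => g • x) f')
      fun y b => a * K x y * b) (by intro x; simp)
      (by intro x a b; simp [← Finsupp.sum_add, add_mul])
  refine e1.trans ?_
  unfold Finsupp.sum
  refine Finset.sum_congr rfl fun x _ => ?_
  have e2 := Finsupp.sum_mapDomain_index (f := fun x : X => g • x) (s := (f' : X →₀ ℝ))
    (h := fun y b => (f x) * K (g • x) y * b) (by intro x; simp)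
      (by intro x a b; simp [mul_add])
  refine e2.trans ?_
  unfold Finsupp.sum
  refine Finset.sum_congr rfl fun y _ => ?_
  change (f x) * K (g • x) (g • y) * (f' y) = (f x) * K x y * (f' y)
  rw [hinv]

lemma norm_trans0 (hinv : ∀ (g : G) (x y : X), K (g • x) (g • y) = K x y) (g : G)
    (f : Pre K) : ‖trans0 K g f‖ = ‖f‖ := by
  have h := inner_trans0 K hinv g f f
  rw [real_inner_self_eq_norm_sq, real_inner_self_eq_norm_sq] at h
  exact (sq_eq_sq₀ (norm_nonneg _) (norm_nonneg _)).mp h

variable (hinv : ∀ (g : G) (x y : X), K (g • x) (g • y) = K x y)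

/-- the translation as a continuous linear map -/
def trans1 (g : G) : Pre K →L[ℝ] Pre K :=
  (trans0 K g).mkContinuous 1 (fun f => by rw [norm_trans0 K hinv, one_mul])

lemma denseRange_toComplL :
    DenseRange (UniformSpace.Completion.toComplL : Pre K →L[ℝ] UniformSpace.Completion (Pre K)) :=
  UniformSpace.Completion.denseRange_coe

lemma isUI_toComplL : IsUniformInducing
    (UniformSpace.Completion.toComplL : Pre K →L[ℝ] UniformSpace.Completion (Pre K)) :=
  UniformSpace.Completion.isUniformInducing_coe _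

/-- the translation on the completion -/
def trans2 (g : G) : UniformSpace.Completion (Pre K) →L[ℝ] UniformSpace.Completion (Pre K) :=
  ((UniformSpace.Completion.toComplL : Pre K →L[ℝ] UniformSpace.Completion (Pre K)).comp
    (trans1 K hinv g)).extend (UniformSpace.Completion.toComplL)

lemma trans2_coe (g : G) (f : Pre K) :
    trans2 K hinv g (f : UniformSpace.Completion (Pre K)) = ((trans0 K g f : Pre K) :
      UniformSpace.Completion (Pre K)) := by
  have := ContinuousLinearMap.extend_eq
    ((UniformSpace.Completion.toComplL : Pre K →L[ℝ] UniformSpace.Completion (Pre K)).comp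
    (trans1 K hinv g)) (denseRange_toComplL K) (isUI_toComplL K) f
  exact this

lemma inner_trans2 (g : G) (a b : UniformSpace.Completion (Pre K)) :
    ⟪trans2 K hinv g a, trans2 K hinv g b⟫_ℝ = ⟪a, b⟫_ℝ := by
  induction a, b using UniformSpace.Completion.induction_on₂ with
  | hp => exact isClosed_eq (by fun_prop) (by fun_prop)
  | ih a b => rw [trans2_coe, trans2_coe, UniformSpace.Completion.inner_coe,
      UniformSpace.Completion.inner_coe, inner_trans0 K hinv]

lemma trans2_mul (g h : G) (a : UniformSpace.Completion (Pre K)) :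
    trans2 K hinv (g * h) a = trans2 K hinv g (trans2 K hinv h a) := by
  induction a using UniformSpace.Completion.induction_on with
  | hp => exact isClosed_eq (by fun_prop) (by fun_prop)
  | ih a => rw [trans2_coe, trans2_coe, trans2_coe, trans0_mul]

lemma trans2_one (a : UniformSpace.Completion (Pre K)) : trans2 K hinv 1 a = a := by
  induction a using UniformSpace.Completion.induction_on with
  | hp => exact isClosed_eq (by fun_prop) (by fun_prop)
  | ih a => rw [trans2_coe, trans0_one]

/-- the translation as a linear isometry -/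
def trans3 (g : G) : UniformSpace.Completion (Pre K) →ₗᵢ[ℝ] UniformSpace.Completion (Pre K) :=
  ⟨(trans2 K hinv g).toLinearMap, fun a => by
    have h := inner_trans2 K hinv g a a
    rw [real_inner_self_eq_norm_sq, real_inner_self_eq_norm_sq] at h
    exact (sq_eq_sq₀ (norm_nonneg _) (norm_nonneg _)).mp h⟩

end Action

/-- GNS construction for an invariant positive semidefinite kernel on a `G`-set. -/
theorem gns_kernel {G : Type} [Group G] {X : Type} [MulAction G X] (K : Matrix X X ℝ)
    (hK : K.PosSemidef) (hinv : ∀ (g : G) (x y : X), K (g • x) (g • y) = K x y) :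
    ∃ (H : Type) (_ : NormedAddCommGroup H) (_ : InnerProductSpace ℝ H) (_ : CompleteSpace H)
      (π : G → H →ₗᵢ[ℝ] H) (v : X → H),
      (∀ x y, ⟪v x, v y⟫_ℝ = K x y) ∧ (∀ g x, π g (v x) = v (g • x)) ∧
      (∀ g h a, π (g * h) a = π g (π h a)) ∧ ∀ a, π 1 a = a := by
  have : Fact K.PosSemidef := ⟨hK⟩
  refine ⟨UniformSpace.Completion (Pre K), inferInstance, inferInstance, inferInstance,
    trans3 K hinv, fun x => ((bv K x : Pre K) : UniformSpace.Completion (Pre K)), ?_, ?_, ?_, ?_⟩
  · intro x y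
    rw [UniformSpace.Completion.inner_coe, inner_bv]
  · intro g x
    change trans2 K hinv g (bv K x : Pre K) = _
    rw [trans2_coe, trans0_bv]
  · intro g h a
    exact trans2_mul K hinv g h a
  · intro a
    exact trans2_one K hinv a

/-! ### Schoenberg -/

section Schoenberg

variable {κ : Type} [Fintype κ]

theorem psd_re {M : Matrix κ κ ℝ} (h : M.PosSemidef) (c : κ → ℝ) :
    0 ≤ ∑ i, ∑ j, c i * c j * M i j := by
  have h1 := h.dotProduct_mulVec_nonneg c
  have h2 : star c ⬝ᵥ (M.mulVec c) = ∑ i, ∑ j, c i * c j * M i j := by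
    unfold dotProduct Matrix.mulVec dotProduct
    refine Finset.sum_congr rfl fun i _ => ?_
    rw [Finset.mul_sum]
    refine Finset.sum_congr rfl fun j _ => ?_
    simp only [Pi.star_apply, star_trivial]
    ring
  rwa [h2] at h1

theorem psd_of {M : Matrix κ κ ℝ} (hs : ∀ i j, M i j = M j i)
    (h : ∀ c : κ → ℝ, 0 ≤ ∑ i, ∑ j, c i * c j * M i j) : M.PosSemidef := by
  refine Matrix.PosSemidef.of_dotProduct_mulVec_nonneg ?_ fun c => ?_
  · ext i j
    rw [Matrix.conjTranspose_apply, star_trivial, hs]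
  · have h2 : star c ⬝ᵥ (M.mulVec c) = ∑ i, ∑ j, c i * c j * M i j := by
      unfold dotProduct Matrix.mulVec dotProduct
      refine Finset.sum_congr rfl fun i _ => ?_
      rw [Finset.mul_sum]
      refine Finset.sum_congr rfl fun j _ => ?_
      simp only [Pi.star_apply, star_trivial]
      ring
    rw [h2]
    exact h c

theorem psd_pow {M : Matrix κ κ ℝ} (h : M.PosSemidef) (n : ℕ) :
    (Matrix.of fun i j : κ => M i j ^ n).PosSemidef := by
  induction n with
  | zero =>
    refine psd_of (fun i j => by simp) fun c => ?_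
    have e : ∑ i, ∑ j, c i * c j * (Matrix.of fun i j : κ => M i j ^ 0) i j =
        (∑ i, c i) * ∑ j, c j := by
      rw [Finset.sum_mul_sum]
      simp
    rw [e]
    exact mul_self_nonneg _
  | succ n ih =>
    have h1 := ih.hadamard h
    have h2 : (Matrix.of fun i j : κ => M i j ^ (n + 1)) =
        Matrix.hadamard (Matrix.of fun i j : κ => M i j ^ n) M := by
      ext i j
      simp [pow_succ]
    rw [h2]
    exact h1

theorem psd_exp {M : Matrix κ κ ℝ} (h : M.PosSemidef) (c : κ → ℝ) :
    0 ≤ ∑ i, ∑ j, c i * c j * Real.exp (M i j) := by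
  have h1 : ∀ i j : κ, Tendsto (fun N : ℕ => ∑ n ∈ Finset.range N, (M i j) ^ n / n.factorial)
      atTop (𝓝 (Real.exp (M i j))) := by
    intro i j
    have h2 := NormedSpace.expSeries_div_hasSum_exp (𝔸 := ℝ) (M i j)
    rw [← Real.exp_eq_exp_ℝ] at h2
    exact h2.tendsto_sum_nat
  have h3 : Tendsto (fun N : ℕ => ∑ i, ∑ j, c i * c j *
      ∑ n ∈ Finset.range N, (M i j) ^ n / n.factorial) atTop
      (𝓝 (∑ i, ∑ j, c i * c j * Real.exp (M i j))) := by
    refine tendsto_finsetSum _ fun i _ => tendsto_finsetSum _ fun j _ => ?_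
    exact (h1 i j).const_mul _
  refine ge_of_tendsto' h3 fun N => ?_
  have h4 : (∑ i, ∑ j, c i * c j *
      ∑ n ∈ Finset.range N, (M i j) ^ n / n.factorial) =
      ∑ n ∈ Finset.range N, ((1 / n.factorial : ℝ)) *
        ∑ i, ∑ j, c i * c j * (Matrix.of fun i j : κ => M i j ^ n) i j := by
    symm
    simp only [Finset.mul_sum]
    rw [Finset.sum_comm]
    refine Finset.sum_congr rfl fun i _ => ?_
    rw [Finset.sum_comm]
    refine Finset.sum_congr rfl fun j _ => ?_
    refine Finset.sum_congr rfl fun n _ => ?_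
    simp only [Matrix.of_apply]
    ring
  rw [h4]
  exact Finset.sum_nonneg fun n _ => mul_nonneg (by positivity) (psd_re (psd_pow h n) c)

end Schoenberg

/-- The kernel `‖x - y‖ ^ q` is of negative type. -/
def NegType (E : Type) [NormedAddCommGroup E] (q : ℝ) : Prop :=
  ∀ (n : ℕ) (x : Fin n → E) (c : Fin n → ℝ), ∑ i, c i = 0 →
    ∑ i, ∑ j, c i * c j * ‖x i - x j‖ ^ q ≤ 0

variable {E : Type} [NormedAddCommGroup E]

theorem NegType.fintype {q : ℝ} (h : NegType E q) {κ : Type} [Fintype κ] (x : κ → E) (c : κ → ℝ)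
    (hc : ∑ i, c i = 0) : ∑ i, ∑ j, c i * c j * ‖x i - x j‖ ^ q ≤ 0 := by
  classical
  set e := (Fintype.equivFin κ).symm with he
  have h1 := h (Fintype.card κ) (fun i => x (e i)) (fun i => c (e i)) (by
    rw [Equiv.sum_comp e c]; exact hc)
  have h2 : ∑ i : Fin (Fintype.card κ), ∑ j : Fin (Fintype.card κ),
      c (e i) * c (e j) * ‖x (e i) - x (e j)‖ ^ q = ∑ i, ∑ j, c i * c j * ‖x i - x j‖ ^ q := by
    rw [← Equiv.sum_comp e]
    refine Finset.sum_congr rfl fun i _ => ?_
    rw [← Equiv.sum_comp e]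
  linarith [h1, h2]

theorem NegType.psd {q : ℝ} (hq : 0 < q) (h : NegType E q) {κ : Type} [Fintype κ] (x : κ → E)
    (b : κ → ℝ) : 0 ≤ ∑ i, ∑ j, b i * b j * (‖x i‖ ^ q + ‖x j‖ ^ q - ‖x i - x j‖ ^ q) := by
  have h1 := h.fintype (κ := Option κ) (fun o => o.elim 0 x)
    (fun o => o.elim (-∑ i, b i) b) (by
      rw [Fintype.sum_option]; simp)
  simp only [Fintype.sum_option, Option.elim_none, Option.elim_some, sub_self, norm_zero,
    Real.zero_rpow hq.ne', mul_zero, zero_sub, norm_neg, sub_zero, zero_add] at h1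
  obtain ⟨S, hS⟩ : ∃ S : ℝ, S = ∑ i, b i := ⟨_, rfl⟩
  obtain ⟨T, hT⟩ : ∃ T : ℝ, T = ∑ i, b i * ‖x i‖ ^ q := ⟨_, rfl⟩
  have e1 : ∑ i, ∑ j, b i * b j * (‖x i‖ ^ q + ‖x j‖ ^ q - ‖x i - x j‖ ^ q) = T * S +
      S * T - ∑ i, ∑ j, b i * b j * ‖x i - x j‖ ^ q := by
    rw [hS, hT, Finset.sum_mul_sum, Finset.sum_mul_sum, ← Finset.sum_add_distrib,
      ← Finset.sum_sub_distrib]
    refine Finset.sum_congr rfl fun i _ => ?_
    rw [← Finset.sum_add_distrib, ← Finset.sum_sub_distrib]
    refine Finset.sum_congr rfl fun j _ => ?_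
    ring
  rw [e1]
  rw [Finset.sum_add_distrib, ← hS] at h1
  have e2 : ∑ j, -S * b j * ‖x j‖ ^ q = -(S * T) := by
    rw [hT, Finset.mul_sum, ← Finset.sum_neg_distrib]
    refine Finset.sum_congr rfl fun j _ => ?_
    ring
  have e3 : ∑ i, b i * -S * ‖x i‖ ^ q = -(S * T) := by
    rw [hT, Finset.mul_sum, ← Finset.sum_neg_distrib]
    refine Finset.sum_congr rfl fun j _ => ?_
    ring
  rw [e2, e3] at h1
  linarith [mul_comm S T]

theorem NegType.exp_psd' {q : ℝ} (hq : 0 < q) (h : NegType E q) {κ : Type} [Fintype κ] (x : κ → E)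
    (c : κ → ℝ) {t : ℝ} (ht : 0 ≤ t) :
    0 ≤ ∑ i, ∑ j, c i * c j * Real.exp (-(t * ‖x i - x j‖ ^ q)) := by
  set M : Matrix κ κ ℝ := Matrix.of fun i j => t * (‖x i‖ ^ q + ‖x j‖ ^ q - ‖x i - x j‖ ^ q) with hM
  have hMp : M.PosSemidef := by
    refine psd_of (fun i j => ?_) fun b => ?_
    · simp only [hM, Matrix.of_apply]
      rw [norm_sub_rev (x i) (x j)]; ring
    · have e : ∑ i, ∑ j, b i * b j * M i j =
          t * ∑ i, ∑ j, b i * b j * (‖x i‖ ^ q + ‖x j‖ ^ q - ‖x i - x j‖ ^ q) := by
        simp only [Finset.mul_sum]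
        refine Finset.sum_congr rfl fun i _ => Finset.sum_congr rfl fun j _ => ?_
        simp only [hM, Matrix.of_apply]
        ring
      rw [e]
      exact mul_nonneg ht (h.psd hq x b)
  have h2 := psd_exp hMp (fun i => c i * Real.exp (-(t * ‖x i‖ ^ q)))
  have e : ∑ i, ∑ j, c i * Real.exp (-(t * ‖x i‖ ^ q)) * (c j * Real.exp (-(t * ‖x j‖ ^ q))) *
      Real.exp (M i j) = ∑ i, ∑ j, c i * c j * Real.exp (-(t * ‖x i - x j‖ ^ q)) := by
    refine Finset.sum_congr rfl fun i _ => Finset.sum_congr rfl fun j _ => ?_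
    have : Real.exp (-(t * ‖x i - x j‖ ^ q)) =
        Real.exp (-(t * ‖x i‖ ^ q)) * Real.exp (-(t * ‖x j‖ ^ q)) * Real.exp (M i j) := by
      rw [← Real.exp_add, ← Real.exp_add]
      congr 1
      simp only [hM, Matrix.of_apply]
      ring
    rw [this]; ring
  rw [e] at h2
  exact h2

theorem NegType.exp_psd {q : ℝ} (hq : 0 < q) (h : NegType E q) {κ : Type} [Fintype κ] (x : κ → E)
    (c : κ → ℝ) : 0 ≤ ∑ i, ∑ j, c i * c j * Real.exp (-‖x i - x j‖ ^ q) := by
  have h1 := h.exp_psd' hq x c zero_le_one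
  simpa only [one_mul] using h1

end Pool.Agent.U590.RT
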