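import Pool.Agent.U590.RT.Aver

/-!
# The radial functions of negative type
-/

set_option autoImplicit false
set_option linter.unusedSectionVars false
set_option linter.unusedVariables false
set_option linter.deprecated false

open scoped InnerProductSpace
open Filter Topology

noncomputable section

namespace Pool.Agent.U590.RT

/-- Rademacher type `p`. -/
def HasType (E : Type) [NormedAddCommGroup E] [NormedSpace ℝ E] (p : ℝ) : Prop :=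
  ∃ C : ℝ, ∀ (n : ℕ) (x : Fin n → E),
    (∑ ε : Fin n → Bool, ‖∑ i, (if ε i then x i else -x i)‖) / 2 ^ n ≤
      C * (∑ i, ‖x i‖ ^ p) ^ (1 / p)

variable {E : Type} [NormedAddCommGroup E] [NormedSpace ℝ E]

theorem isosceles (hr : 1 < Module.rank ℝ E) {e : E} (he : ‖e‖ = 1) {s t : ℝ} (ht : 0 ≤ t)
    (hts : t ≤ 2 * s) : ∃ a : E, ‖a‖ = s ∧ ‖a - t • e‖ = s := by
  have hs : 0 ≤ s := by linarith
  have hpc := isPreconnected_sphere hr (0 : E) s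
  have hc : ContinuousOn (fun a : E => ‖a - t • e‖) (Metric.sphere (0 : E) s) := by fun_prop
  have h1 : s • e ∈ Metric.sphere (0 : E) s := by
    rw [mem_sphere_zero_iff_norm, norm_smul, he, mul_one, Real.norm_of_nonneg hs]
  have h2 : -(s • e) ∈ Metric.sphere (0 : E) s := by
    rw [mem_sphere_zero_iff_norm, norm_neg, norm_smul, he, mul_one, Real.norm_of_nonneg hs]
  have h3 := hpc.intermediate_value h1 h2 hc
  have h4 : s ∈ Set.Icc ‖s • e - t • e‖ ‖-(s • e) - t • e‖ := by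
    constructor
    · rw [← sub_smul, norm_smul, he, mul_one, Real.norm_eq_abs, abs_le]
      constructor <;> linarith
    · rw [← neg_smul, ← sub_smul, norm_smul, he, mul_one, Real.norm_eq_abs, le_abs]
      right; linarith
  obtain ⟨a, ha, hb⟩ := h3 h4
  exact ⟨a, mem_sphere_zero_iff_norm.1 ha, hb⟩

section

variable {φ : ℝ → ℝ} {H : Type} [NormedAddCommGroup H] [InnerProductSpace ℝ H] [CompleteSpace H]
  (R : Rep E φ H)

theorem dist_tau (ζ : H) (a b : E) : ‖R.τ a ζ - R.τ b ζ‖ = ‖R.τ (a - b) ζ - ζ‖ := by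
  have e : R.τ a ζ - R.τ b ζ = R.τ b (R.τ (a - b) ζ - ζ) := by
    rw [map_sub, R.τ_τ, add_sub_cancel]
  rw [e, (R.τ b).norm_map]

theorem nsq (ζ : H) (a : E) : ‖R.τ a ζ - ζ‖ ^ 2 = 2 * ‖ζ‖ ^ 2 - 2 * ⟪R.τ a ζ, ζ⟫_ℝ := by
  rw [norm_sub_sq_real, (R.τ a).norm_map]
  ring

theorem radial (hE : AlmostTransitive E) {ζ : H} (hf : Fixd R ζ) (hs : SC R ζ) {a b : E}
    (hab : ‖a‖ = ‖b‖) : ‖R.τ a ζ - ζ‖ = ‖R.τ b ζ - ζ‖ := by
  have h1 : ⟪R.τ a ζ, ζ⟫_ℝ = ⟪R.τ b ζ, ζ⟫_ℝ := by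
    rw [← P_inner R _ hf, ← P_inner R (R.τ b ζ) hf, P_tau R hE hf hs hab]
  have h2 : ‖R.τ a ζ - ζ‖ ^ 2 = ‖R.τ b ζ - ζ‖ ^ 2 := by rw [nsq, nsq, h1]
  exact (sq_eq_sq₀ (norm_nonneg _) (norm_nonneg _)).1 h2

theorem neg_type (ζ : H) (s : ℝ) {n : ℕ} (x : Fin n → E) (c : Fin n → ℝ) (hc : ∑ i, c i = 0) :
    ∑ i, ∑ j, c i * c j * ‖R.τ (s • (x i - x j)) ζ - ζ‖ ^ 2 ≤ 0 := by
  have h1 : ∀ i j, ‖R.τ (s • (x i - x j)) ζ - ζ‖ ^ 2 =
      2 * ‖ζ‖ ^ 2 - 2 * ⟪R.τ (s • x i) ζ, R.τ (s • x j) ζ⟫_ℝ := by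
    intro i j
    rw [smul_sub, ← dist_tau, norm_sub_sq_real, (R.τ _).norm_map, (R.τ _).norm_map]
    ring
  have h2 : ∑ i, ∑ j, c i * c j * ‖R.τ (s • (x i - x j)) ζ - ζ‖ ^ 2 =
      2 * ‖ζ‖ ^ 2 * ((∑ i, c i) * (∑ j, c j)) -
        2 * ∑ i, ∑ j, c i * c j * ⟪R.τ (s • x i) ζ, R.τ (s • x j) ζ⟫_ℝ := by
    rw [Finset.sum_mul_sum, Finset.mul_sum, Finset.mul_sum, ← Finset.sum_sub_distrib]
    refine Finset.sum_congr rfl fun i _ => ?_
    rw [Finset.mul_sum, Finset.mul_sum, ← Finset.sum_sub_distrib]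
    refine Finset.sum_congr rfl fun j _ => ?_
    rw [h1]; ring
  have h3 : ∑ i, ∑ j, c i * c j * ⟪R.τ (s • x i) ζ, R.τ (s • x j) ζ⟫_ℝ =
      ‖∑ i, c i • R.τ (s • x i) ζ‖ ^ 2 := by
    rw [← real_inner_self_eq_norm_sq, sum_inner]
    refine Finset.sum_congr rfl fun i _ => ?_
    rw [inner_sum]
    refine Finset.sum_congr rfl fun j _ => ?_
    rw [real_inner_smul_left, real_inner_smul_right]
    ring
  rw [h2, h3, hc]
  have := sq_nonneg ‖∑ i, c i • R.τ (s • x i) ζ‖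
  linarith

theorem cont_tau {ζ : H} (hs : SC R ζ) (e : E) : Continuous fun t : ℝ => R.τ (t • e) ζ := by
  rw [Metric.continuous_iff]
  intro t ε hε
  obtain ⟨δ, hδ, h⟩ := hs ε hε
  refine ⟨δ / (‖e‖ + 1), by positivity, fun t' ht' => ?_⟩
  rw [dist_eq_norm, dist_tau, ← sub_smul]
  refine h _ ?_
  rw [norm_smul]
  rw [dist_eq_norm] at ht'
  have h0 : 0 < ‖e‖ + 1 := by positivity
  calc ‖t' - t‖ * ‖e‖ ≤ ‖t' - t‖ * (‖e‖ + 1) :=
        mul_le_mul_of_nonneg_left (by linarith) (norm_nonneg _)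
    _ < δ / (‖e‖ + 1) * (‖e‖ + 1) := mul_lt_mul_of_pos_right ht' h0
    _ = δ := by field_simp

end

theorem Y_sub {φ : ℝ → ℝ} {H : Type} [NormedAddCommGroup H] [InnerProductSpace ℝ H]
    [CompleteSpace H] (R : Rep E φ H) {p C : ℝ} (hp : 0 < p)
    (hC : ∀ (n : ℕ) (x : Fin n → E),
      (∑ ε : Fin n → Bool, ‖∑ i, (if ε i then x i else -x i)‖) / 2 ^ n ≤
        C * (∑ i, ‖x i‖ ^ p) ^ (1 / p)) {θ : ℝ} (hθ : 0 < θ) {m : ℕ} (hm : 1 ≤ m) :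
    Y R m (θ * (m : ℝ) ^ (-(1 / p))) ⊆ D R (C * θ) := by
  rintro _ ⟨y, hy, rfl⟩
  have hmR : (0 : ℝ) < m := by exact_mod_cast hm
  have h1 := hC m y
  have h2 : ∑ i, ‖y i‖ ^ p = θ ^ p := by
    simp only [hy]
    rw [Finset.sum_const, Finset.card_univ, Fintype.card_fin, nsmul_eq_mul,
      Real.mul_rpow hθ.le (by positivity), ← Real.rpow_mul hmR.le]
    have : -(1 / p) * p = -1 := by field_simp
    rw [this, Real.rpow_neg_one]
    field_simp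
  rw [h2, ← Real.rpow_mul hθ.le, mul_one_div_cancel hp.ne', Real.rpow_one] at h1
  refine ⟨Fin m → Bool, inferInstance, fun _ => ((2 : ℝ) ^ m)⁻¹, fun ε => sgs ε y, ?_, ?_, ?_, ?_⟩
  · intro ε; positivity
  · rw [Finset.sum_const, Finset.card_univ, Fintype.card_fun, Fintype.card_bool, Fintype.card_fin,
      nsmul_eq_mul]
    push_cast
    field_simp
  · rw [← Finset.mul_sum, inv_mul_eq_div]
    have : ∑ ε : Fin m → Bool, ‖sgs ε y‖ =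
      ∑ ε : Fin m → Bool, ‖∑ i, (if ε i then y i else -y i)‖ := rfl
    rw [this]
    exact h1
  · rw [Finset.smul_sum]

theorem D_mono {φ : ℝ → ℝ} {H : Type} [NormedAddCommGroup H] [InnerProductSpace ℝ H]
    [CompleteSpace H] (R : Rep E φ H) {a b : ℝ} (hab : a ≤ b) : D R a ⊆ D R b := by
  rintro _ ⟨κ, i1, w, x, hw, hw1, hw2, rfl⟩
  exact ⟨κ, i1, w, x, hw, hw1, hw2.trans hab, rfl⟩

theorem key {φ : ℝ → ℝ} (hPD : RadialPD E φ) (hq : Nice φ) {s₁ : ℝ} (hs₁ : 0 < s₁)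
    (hφs : φ s₁ < 1) (hE : AlmostTransitive E)
    (hr : 1 < Module.rank ℝ E) {p : ℝ} (hp : 0 < p) (hT : HasType E p) :
    ∃ L θ κ₀ : ℝ, 0 < θ ∧ 0 < κ₀ ∧ ∀ m : ℕ, 1 ≤ m → ∃ f : ℝ → ℝ, Continuous f ∧ f 0 = 0 ∧
      (∀ t, 0 ≤ f t ∧ f t ≤ 2) ∧
      (∀ (n : ℕ) (x : Fin n → E) (c : Fin n → ℝ) (s : ℝ), 0 ≤ s → ∑ i, c i = 0 →
        ∑ i, ∑ j, c i * c j * f (s * ‖x i - x j‖) ≤ 0) ∧
      (∀ t, 0 ≤ t → t ≤ 2 * (θ * (m : ℝ) ^ (-(1 / p))) → f t ≤ L / m) ∧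
      (∀ s t, 0 ≤ t → t ≤ 2 * s → f t ≤ 4 * f s) ∧ κ₀ ≤ f s₁ := by
  obtain ⟨C, hC⟩ := hT
  obtain ⟨H, i1, i2, i3, ⟨R⟩⟩ := exists_rep hPD
  obtain ⟨e₀, he₀⟩ : ∃ e₀ : E, e₀ ≠ 0 := by
    by_contra hcon
    push Not at hcon
    have : Subsingleton E := ⟨fun a b => by rw [hcon a, hcon b]⟩
    rw [rank_subsingleton'] at hr
    exact absurd hr (not_lt.2 zero_le_one)
  obtain ⟨e, he⟩ : ∃ e : E, ‖e‖ = 1 :=
    ⟨‖e₀‖⁻¹ • e₀, by
      rw [norm_smul, norm_inv, norm_norm, inv_mul_cancel₀ (norm_ne_zero_iff.2 he₀)]⟩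
  have hne : ∀ t : ℝ, 0 ≤ t → ‖t • e‖ = t := fun t ht => by
    rw [norm_smul, he, mul_one, Real.norm_of_nonneg ht]
  -- bounds for `φ`
  have habs : ∀ u : E, |φ ‖u‖| ≤ 1 := by
    intro u
    have h1 := abs_real_inner_le_norm (R.ξ u) (R.ξ 0)
    rwa [norm_xi R hq, norm_xi R hq, R.inner_ξ, sub_zero, mul_one] at h1
  have hlow : ∀ t, 0 ≤ t → -1 ≤ φ t := fun t ht => by
    have := (abs_le.1 (habs (t • e))).1
    rwa [hne t ht] at this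
  have hkr : ∀ u w : E, φ ‖u + w‖ - φ ‖u‖ ≤ Real.sqrt (2 * (1 - φ ‖w‖)) := by
    intro u w
    have h1 : φ ‖u + w‖ - φ ‖u‖ = ⟪R.ξ (u + w) - R.ξ u, R.ξ 0⟫_ℝ := by
      rw [inner_sub_left, R.inner_ξ, R.inner_ξ, sub_zero, sub_zero]
    have h2 := real_inner_le_norm (R.ξ (u + w) - R.ξ u) (R.ξ 0)
    rw [norm_xi R hq, mul_one] at h2
    rw [h1]
    refine h2.trans (Real.le_sqrt_of_sq_le ?_)
    rw [dist_xi R hq, add_sub_cancel_left]
  set η : ℝ := (1 - φ s₁) / 8 with hη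
  have hη0 : 0 < η := by positivity
  have hη4 : η ≤ 1 / 4 := by
    have := hlow s₁ hs₁.le
    rw [hη]; linarith
  obtain ⟨δ₀, hδ₀, hδ₀'⟩ := hq.2 (min η (η ^ 2 / 2)) (lt_min hη0 (by positivity))
  set r₀ : ℝ := δ₀ / 2 with hr₀
  have hr₀0 : 0 < r₀ := by positivity
  have hsm : ∀ t, 0 ≤ t → t ≤ r₀ → 1 - φ t < min η (η ^ 2 / 2) := fun t h0 h1 =>
    hδ₀' t h0 (by rw [hr₀] at h1; linarith)
  set ρ : ℝ := η * r₀ / 4 with hρ
  have hρ0 : 0 < ρ := by positivity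
  have hρ4 : 4 * ρ / r₀ = η := by rw [hρ]; field_simp
  set θ : ℝ := ρ / (|C| + 1) with hθ
  have hθ0 : 0 < θ := by positivity
  have hCθ : C * θ ≤ ρ := by
    rw [hθ, mul_div_assoc', div_le_iff₀ (by positivity)]
    have := le_abs_self C
    nlinarith
  refine ⟨4 * Real.log (1 / (1 / 2)), θ, 4 * η, hθ0, by positivity, fun m hm => ?_⟩
  have hmR : (0 : ℝ) < m := by exact_mod_cast hm
  set δ : ℝ := θ * (m : ℝ) ^ (-(1 / p)) with hδ
  have hδ0 : 0 < δ := mul_pos hθ0 (Real.rpow_pos_of_pos hmR _)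
  set a : E := δ • e with ha
  have han : ‖a‖ = δ := hne δ hδ0.le
  set ζ : H := zt R a m with hζ
  have hf : Fixd R ζ := zt_fix R a m
  have hs : SC R ζ := zt_sc R hq a m
  have hD : ζ ∈ closure (D R ρ) := by
    have h1 := zt_mem R a m
    rw [han] at h1
    exact closure_mono (convexHull_min ((Y_sub R hp hC hθ0 hm).trans (D_mono R hCθ))
      (D_convex R ρ)) h1
  have hlow' : 1 - 2 * η ≤ ‖ζ‖ ^ 2 := by
    have h1 := D_lower R hη0.le hr₀0 hρ0.le hlow (fun t h0 h1 => by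
      have := (hsm t h0 h1).le.trans (min_le_left _ _)
      linarith) hD
    rw [hρ4] at h1
    linarith
  have hζ0 : 0 < ‖ζ‖ ^ 2 := by linarith
  have hζn : 0 < ‖ζ‖ := by
    rcases (norm_nonneg ζ).eq_or_lt with h | h
    · rw [← h] at hζ0; norm_num at hζ0
    · exact h
  have hanti : Antitone fun n => ‖zt R a n‖ := antitone_nat_of_succ_le (zt_anti R a)
  have hζ1 : ‖ζ‖ ≤ 1 := by
    have := hanti (Nat.zero_le m)
    simp only [zt_zero R hq a] at this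
    exact this
  have hκ : (1 / 2 : ℝ) ≤ ‖ζ‖ := by nlinarith
  have hrat := ratio (N := fun n => ‖zt R a n‖) (zt_zero R hq a) (fun k => norm_nonneg _)
    (zt_anti R a) (zt_convex R hq hE a) hm (by norm_num) hκ
  have hPa : zt R a (m + 1) = P R (R.τ a ζ) := rfl
  simp only [hPa, ← hζ] at hrat
  set f : ℝ → ℝ := fun t => ‖R.τ (t • e) ζ - ζ‖ ^ 2 / (2 * ‖ζ‖ ^ 2) with hfdef
  have hrad : ∀ u : E, ‖R.τ u ζ - ζ‖ ^ 2 / (2 * ‖ζ‖ ^ 2) = f ‖u‖ := by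
    intro u
    simp only [hfdef]
    rw [radial R hE hf hs (a := u) (b := ‖u‖ • e) (hne _ (norm_nonneg u)).symm]
  refine ⟨f, ?_, ?_, ?_, ?_, ?_, ?_, ?_⟩
  · have h1 := cont_tau R hs e
    simp only [hfdef]
    fun_prop
  · simp only [hfdef]
    rw [zero_smul, R.τ_zero, sub_self, norm_zero]
    simp
  · intro t
    refine ⟨by simp only [hfdef]; positivity, ?_⟩
    simp only [hfdef]
    rw [div_le_iff₀ (by positivity)]
    have h1 := norm_sub_le (R.τ (t • e) ζ) ζ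
    rw [(R.τ _).norm_map] at h1
    have h2 := norm_nonneg (R.τ (t • e) ζ - ζ)
    nlinarith
  · intro n x c s hs0 hcs
    have h1 := neg_type R ζ s x c hcs
    have h2 : ∑ i, ∑ j, c i * c j * f (s * ‖x i - x j‖) =
        (∑ i, ∑ j, c i * c j * ‖R.τ (s • (x i - x j)) ζ - ζ‖ ^ 2) / (2 * ‖ζ‖ ^ 2) := by
      rw [Finset.sum_div]
      refine Finset.sum_congr rfl fun i _ => ?_
      rw [Finset.sum_div]
      refine Finset.sum_congr rfl fun j _ => ?_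
      have h3 : s * ‖x i - x j‖ = ‖s • (x i - x j)‖ := by
        rw [norm_smul, Real.norm_of_nonneg hs0]
      rw [h3, ← hrad]
      ring
    rw [h2]
    exact div_nonpos_of_nonpos_of_nonneg h1 (by positivity)
  · intro t ht0 ht
    obtain ⟨b, hb1, hb2⟩ := isosceles hr he ht0 ht
    have h1 : ‖R.τ b ζ - P R (R.τ b ζ)‖ ^ 2 = ‖ζ‖ ^ 2 - ‖P R (R.τ a ζ)‖ ^ 2 := by
      rw [P_norm, (R.τ b).norm_map, P_tau R hE hf hs (a := b) (b := a) (by rw [hb1, han])]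
    have h2 : ‖R.τ (b - t • e) ζ - P R (R.τ (b - t • e) ζ)‖ ^ 2 =
        ‖ζ‖ ^ 2 - ‖P R (R.τ a ζ)‖ ^ 2 := by
      rw [P_norm, (R.τ _).norm_map,
        P_tau R hE hf hs (a := b - t • e) (b := a) (by rw [hb2, han])]
    have h3 : P R (R.τ b ζ) = P R (R.τ (b - t • e) ζ) :=
      P_tau R hE hf hs (by rw [hb1, hb2])
    have h4 : ‖R.τ (t • e) ζ - ζ‖ = ‖R.τ b ζ - R.τ (b - t • e) ζ‖ := by
      rw [dist_tau, sub_sub_cancel]
    have h5 : ‖R.τ b ζ - R.τ (b - t • e) ζ‖ ≤ ‖R.τ b ζ - P R (R.τ b ζ)‖ +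
        ‖R.τ (b - t • e) ζ - P R (R.τ (b - t • e) ζ)‖ := by
      have e1 : R.τ b ζ - R.τ (b - t • e) ζ = (R.τ b ζ - P R (R.τ b ζ)) -
          (R.τ (b - t • e) ζ - P R (R.τ (b - t • e) ζ)) := by
        rw [h3]; abel
      rw [e1]
      exact norm_sub_le _ _
    set A := ‖R.τ b ζ - P R (R.τ b ζ)‖ with hA
    set B := ‖R.τ (b - t • e) ζ - P R (R.τ (b - t • e) ζ)‖ with hB
    have h6 : ‖R.τ (t • e) ζ - ζ‖ ^ 2 ≤ 4 * (‖ζ‖ ^ 2 - ‖P R (R.τ a ζ)‖ ^ 2) := by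
      rw [h4]
      have h7 := norm_nonneg (R.τ b ζ - R.τ (b - t • e) ζ)
      have h8 : ‖R.τ b ζ - R.τ (b - t • e) ζ‖ ^ 2 ≤ (A + B) ^ 2 := pow_le_pow_left₀ h7 h5 2
      have h9 : (A + B) ^ 2 ≤ 2 * A ^ 2 + 2 * B ^ 2 := by nlinarith [sq_nonneg (A - B)]
      linarith
    simp only [hfdef]
    rw [div_le_iff₀ (by positivity)]
    have e2 : 4 * Real.log (1 / (1 / 2)) / m * (2 * ‖ζ‖ ^ 2) =
        4 * (2 * (Real.log (1 / (1 / 2)) / m) * ‖ζ‖ ^ 2) := by ring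
    rw [e2]
    linarith
  · intro s t ht0 hts
    have hs0 : 0 ≤ s := by linarith
    obtain ⟨b, hb1, hb2⟩ := isosceles hr he ht0 hts
    have h1 : ‖R.τ (t • e) ζ - ζ‖ ≤ ‖R.τ b ζ - ζ‖ + ‖R.τ (t • e - b) ζ - ζ‖ := by
      have e1 : R.τ (t • e) ζ - ζ = R.τ (t • e - b) (R.τ b ζ - ζ) + (R.τ (t • e - b) ζ - ζ) := by
        rw [map_sub, R.τ_τ, sub_add_cancel]; abel
      rw [e1]
      refine (norm_add_le _ _).trans ?_
      rw [(R.τ _).norm_map]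
    have h2 : ‖R.τ b ζ - ζ‖ = ‖R.τ (s • e) ζ - ζ‖ :=
      radial R hE hf hs (by rw [hb1, hne s hs0])
    have h3 : ‖R.τ (t • e - b) ζ - ζ‖ = ‖R.τ (s • e) ζ - ζ‖ :=
      radial R hE hf hs (by rw [norm_sub_rev, hb2, hne s hs0])
    rw [h2, h3] at h1
    simp only [hfdef]
    rw [div_le_iff₀ (by positivity)]
    have h4 : 4 * (‖R.τ (s • e) ζ - ζ‖ ^ 2 / (2 * ‖ζ‖ ^ 2)) * (2 * ‖ζ‖ ^ 2) =
        4 * ‖R.τ (s • e) ζ - ζ‖ ^ 2 := by field_simp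
    rw [h4]
    have h5 := norm_nonneg (R.τ (t • e) ζ - ζ)
    nlinarith [norm_nonneg (R.τ (s • e) ζ - ζ)]
  · have h1 := D_upper R (u := s₁ • e) hη0.le hr₀0 hρ0.le (fun w => by
      have a1 := (abs_le.1 (habs (s₁ • e + w))).2
      have a2 := (abs_le.1 (habs (s₁ • e))).1
      linarith) (fun w hw => by
      have a1 := hkr (s₁ • e) w
      have a2 : Real.sqrt (2 * (1 - φ ‖w‖)) ≤ η := by
        rw [Real.sqrt_le_left hη0.le]
        have := (hsm ‖w‖ (norm_nonneg _) hw).le.trans (min_le_right _ _)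
        linarith
      linarith) hD
    rw [hne s₁ hs₁.le, hρ4] at h1
    simp only [hfdef]
    rw [nsq, le_div_iff₀ (by positivity)]
    have h2 : ‖ζ‖ ^ 2 ≤ 1 := pow_le_one₀ (norm_nonneg _) hζ1
    have h3 : φ s₁ = 1 - 8 * η := by rw [hη]; ring
    nlinarith

end Pool.Agent.U590.RT
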