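import Pool.Agent.U590.RT.Gns

/-!
# The representation attached to `exp (-‖x - y‖ ^ q)` and the mean ergodic theorem
-/

set_option autoImplicit false
set_option linter.unusedSectionVars false
set_option linter.unusedVariables false
set_option linter.style.haveILetI false
set_option linter.deprecated false

open scoped InnerProductSpace
open Filter Topology

noncomputable section

namespace Pool.Agent.U590.RT

/-! ### Fixed points in the closed convex hull of an orbit -/

section Mean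

variable {H : Type} [NormedAddCommGroup H] [InnerProductSpace ℝ H]

/-- closed convex hull of the orbit -/
def hull {ι : Type} (U : ι → H →ₗᵢ[ℝ] H) (x : H) : Set H :=
  closure (convexHull ℝ (Set.range fun i => U i x))

theorem hull_le {ι : Type} (U : ι → H →ₗᵢ[ℝ] H) (x : H) {s : Set H} (hs : IsClosed s)
    (hc : Convex ℝ s) (h : ∀ i, U i x ∈ s) : hull U x ⊆ s :=
  closure_minimal (convexHull_min (by rintro _ ⟨i, rfl⟩; exact h i) hc) hs

theorem mean [CompleteSpace H] {ι : Type} [Nonempty ι] (U : ι → H →ₗᵢ[ℝ] H)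
    (hU : ∀ i j, ∃ k, ∀ v, U i (U j v) = U k v) (x : H) :
    ∃ y ∈ hull U x, (∀ i, U i y = y) ∧ ∀ k : H, (∀ i, U i k = k) → ⟪y, k⟫_ℝ = ⟪x, k⟫_ℝ := by
  have hcl : IsClosed (hull U x) := isClosed_closure
  have hcv : Convex ℝ (hull U x) := (convex_convexHull ℝ _).closure
  have hmem : ∀ i, U i x ∈ hull U x := fun i =>
    subset_closure (subset_convexHull ℝ _ ⟨i, rfl⟩)
  have hne : (hull U x).Nonempty := ⟨_, hmem (Classical.arbitrary ι)⟩
  obtain ⟨y, hy, hymin⟩ := exists_norm_eq_iInf_of_complete_convex hne hcl.isComplete hcv (0 : H)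
  have hle := (norm_eq_iInf_iff_real_inner_le_zero hcv hy).1 hymin
  have hinv : ∀ i, ∀ z ∈ hull U x, U i z ∈ hull U x := by
    intro i
    have h1 : hull U x ⊆ (U i) ⁻¹' (hull U x) := by
      refine hull_le U x (hcl.preimage (U i).continuous) (hcv.linear_preimage (U i).toLinearMap)
        fun j => ?_
      obtain ⟨k, hk⟩ := hU i j
      change U i (U j x) ∈ hull U x
      rw [hk]
      exact hmem k
    exact fun z hz => h1 hz
  refine ⟨y, hy, fun i => ?_, fun k hk => ?_⟩
  · have h1 := hle (U i y) (hinv i y hy)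
    rw [zero_sub, inner_neg_left, inner_sub_right, real_inner_self_eq_norm_sq] at h1
    have h2 : ‖U i y - y‖ ^ 2 ≤ 0 := by
      rw [norm_sub_sq_real, (U i).norm_map, real_inner_comm]
      linarith
    have h3 : ‖U i y - y‖ = 0 := by
      have := sq_nonneg ‖U i y - y‖
      exact pow_eq_zero_iff (two_ne_zero) |>.1 (le_antisymm h2 this)
    exact sub_eq_zero.1 (norm_eq_zero.1 h3)
  · have h1 : hull U x ⊆ {z | ⟪z, k⟫_ℝ = ⟪x, k⟫_ℝ} := by
      refine hull_le U x (isClosed_eq (by fun_prop) (by fun_prop)) ?_ fun i => ?_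
      · intro a ha b hb s t _ _ hst
        simp only [Set.mem_setOf_eq] at ha hb ⊢
        rw [inner_add_left, real_inner_smul_left, real_inner_smul_left, ha, hb, ← add_mul, hst,
          one_mul]
      · change ⟪U i x, k⟫_ℝ = ⟪x, k⟫_ℝ
        conv_lhs => rw [← hk i]
        exact (U i).inner_map_map x k
    exact h1 hy

end Mean

/-- Almost transitive norm: for unit vectors `x`, `y` there are linear isometries `T` with `T x`
arbitrarily close to `y`. -/
def AlmostTransitive (E : Type) [NormedAddCommGroup E] [NormedSpace ℝ E] : Prop :=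
  ∀ x y : E, ‖x‖ = 1 → ‖y‖ = 1 → ∀ ε : ℝ, 0 < ε → ∃ T : E ≃ₗᵢ[ℝ] E, ‖T x - y‖ < ε

/-- The kernel `φ ‖x - y‖` is positive definite. -/
def RadialPD (E : Type) [NormedAddCommGroup E] (φ : ℝ → ℝ) : Prop :=
  ∀ (n : ℕ) (x : Fin n → E) (c : Fin n → ℝ), 0 ≤ ∑ i, ∑ j, c i * c j * φ ‖x i - x j‖

/-- A representation of the isometries attached to the kernel `φ ‖x - y‖`. -/
structure Rep (E : Type) [NormedAddCommGroup E] [NormedSpace ℝ E] (φ : ℝ → ℝ) (H : Type)
    [NormedAddCommGroup H] [InnerProductSpace ℝ H] where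
  τ : E → H →ₗᵢ[ℝ] H
  π : (E ≃ₗᵢ[ℝ] E) → H →ₗᵢ[ℝ] H
  ξ : E → H
  inner_ξ : ∀ x y, ⟪ξ x, ξ y⟫_ℝ = φ ‖x - y‖
  τ_ξ : ∀ a x, τ a (ξ x) = ξ (a + x)
  π_ξ : ∀ T x, π T (ξ x) = ξ (T x)
  τ_τ : ∀ a b v, τ a (τ b v) = τ (a + b) v
  τ_zero : ∀ v, τ 0 v = v
  π_π : ∀ S T v, π S (π T v) = π (T.trans S) v
  π_τ : ∀ T a v, π T (τ a v) = τ (T a) (π T v)

section Constr

variable {E : Type} [NormedAddCommGroup E] [NormedSpace ℝ E]

theorem RadialPD.fintype {φ : ℝ → ℝ} (h : RadialPD E φ) {κ : Type} [Fintype κ] (x : κ → E)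
    (c : κ → ℝ) : 0 ≤ ∑ i, ∑ j, c i * c j * φ ‖x i - x j‖ := by
  classical
  set e := (Fintype.equivFin κ).symm with he
  have h1 := h (Fintype.card κ) (fun i => x (e i)) (fun i => c (e i))
  have h2 : ∑ i : Fin (Fintype.card κ), ∑ j : Fin (Fintype.card κ),
      c (e i) * c (e j) * φ ‖x (e i) - x (e j)‖ = ∑ i, ∑ j, c i * c j * φ ‖x i - x j‖ := by
    rw [← Equiv.sum_comp e]
    refine Finset.sum_congr rfl fun i _ => ?_
    rw [← Equiv.sum_comp e]
  linarith [h1, h2]

/-- the action of the isometries -/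
@[reducible]
def isoAct : MulAction (E ≃ᵢ E) E where
  smul g x := g x
  one_smul x := rfl
  mul_smul g h x := rfl

/-- the kernel -/
def ker (E : Type) [NormedAddCommGroup E] (φ : ℝ → ℝ) : Matrix E E ℝ :=
  Matrix.of fun x y => φ ‖x - y‖

theorem ker_psd {φ : ℝ → ℝ} (h : RadialPD E φ) : (ker E φ).PosSemidef := by
  classical
  refine ⟨?_, fun f => ?_⟩
  · ext x y
    rw [Matrix.conjTranspose_apply, star_trivial]
    simp only [ker, Matrix.of_apply]
    rw [norm_sub_rev]
  · have h1 := h.fintype (κ := f.support) (fun i => (i : E)) (fun i => f i)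
    have h2 : (f.sum fun i xi ↦ f.sum fun j xj ↦ star xi * ker E φ i j * xj) =
        ∑ i : f.support, ∑ j : f.support, f i * f j * φ ‖(i : E) - j‖ := by
      unfold Finsupp.sum
      rw [← Finset.sum_coe_sort]
      refine Finset.sum_congr rfl fun i _ => ?_
      change ∑ a ∈ f.support, star (f i) * ker E φ i a * f a = _
      rw [← Finset.sum_coe_sort f.support]
      refine Finset.sum_congr rfl fun j _ => ?_
      change star (f i) * φ ‖(i : E) - j‖ * f j = _
      rw [star_trivial]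
      ring
    rw [h2]
    exact h1

theorem exists_rep {φ : ℝ → ℝ} (h : RadialPD E φ) :
    ∃ (H : Type) (_ : NormedAddCommGroup H) (_ : InnerProductSpace ℝ H) (_ : CompleteSpace H),
      Nonempty (Rep E φ H) := by
  letI : MulAction (E ≃ᵢ E) E := isoAct
  have hsm : ∀ (g : E ≃ᵢ E) (x : E), g • x = g x := fun g x => rfl
  obtain ⟨H, i1, i2, i3, U, v, h1, h2, h3, h4⟩ := gns_kernel (G := E ≃ᵢ E) (ker E φ) (ker_psd h)
    (by
      intro g x y
      simp only [ker, Matrix.of_apply, hsm]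
      rw [← dist_eq_norm, ← dist_eq_norm, g.isometry.dist_eq])
  refine ⟨H, i1, i2, i3, ⟨⟨fun a => U (IsometryEquiv.addLeft a), fun T => U T.toIsometryEquiv, v,
    h1, ?_, ?_, ?_, ?_, ?_, ?_⟩⟩⟩
  · intro a x
    rw [h2, hsm]
    rfl
  · intro T x
    rw [h2, hsm]
    rfl
  · intro a b w
    rw [← h3]
    congr 2
    ext x
    simp [add_assoc]
  · intro w
    have e : (IsometryEquiv.addLeft (0 : E)) = 1 := by
      ext x
      simp
    simp only [e]
    exact h4 w
  · intro S T w
    rw [← h3]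
    rfl
  · intro T a w
    rw [← h3, ← h3]
    congr 2
    ext x
    simp

end Constr

end Pool.Agent.U590.RT
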